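import Pool.Agent.helper7.AL.Spec

/-!
# Project AL (MP_bf63dc_nt), hand-in 1, second part: the alternative for every ratio

THEOREM. There is an absolute `K ≥ 1` such that for all coprime `a₀, b₀ ≥ 1` at least one of (A), (B) holds.
(A) For all finite sets `X`, `Y` of `K` integers each for which all `(a₀, b₀, a₀ x - b₀ y)` satisfy the conditions of Q1,
some `(a₀, b₀, a₀ x - b₀ y)` is a true case; and every interval of `N` integers contains at most `C(a₀, b₀) N^(1-1/K)`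
integers `c` for which `(a₀, b₀, c)` satisfies the conditions of Q1 and is not a true case.
(B) There is `C(a₀, b₀)` such that for ALL coprime `a, b ≥ 1` and all `X ≥ C (a + b)` one of the three ratios `a : b`,
`a a₀ : b b₀`, `a a₀² : b b₀²` in lowest terms has at least `X / (C (a + b))` true `c` with `|c| ≤ X`.

PROOF.  `K = k (4k)!`.  If (A) fails, Kovari-Sos-Turan and the pigeonhole principle give `X`, `Y` with `k` elements, in one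
class modulo `(4k)!` each, all `c = a₀ x - b₀ y` bad.  Four clusters
`C₁ = b b₀² n + b₀ h + x`, `C₂ = b b₀ a₀ n + a₀ h + y`, `C₃ = a a₀ b₀ n + b₀ h' + x`, `C₄ = a a₀² n + a₀ h' + y`:
`a₀ C₁ - b₀ C₂ = a₀ x - b₀ y = a₀ C₃ - b₀ C₄` is bad.  So two forms of one of the other four pairs of clusters are prime
together (GGP).  With `A : B` = `a a₀ : b b₀` in lowest terms and `c₁ = A h - B h'` the values are `κ c₁ + a' z - b' z'`, `a' : b'` one of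
the three ratios in lowest terms, `1 ≤ κ ≤ a₀ b₀`, `a' + b' ≤ κ (A + B)`.  Every interval of length `C (A + B)` contains a
suitable `c₁` (JAC, GFT, GLC).  Windows for `c₁` which are far apart give different values of the same kind (GCT).

RULES as in Spec.lean; files `Pool/Agent/<seat>/AL/<ROW>.lean`, import Pool.Agent.helper7.AL.SpecG, namespace Pool.Agent.AL.
-/

set_option autoImplicit false

namespace Pool.Agent.AL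

open Finset Pool.Agent.helper85.FC Pool.Agent.helper11.MK

/-- The conditions of Q1. -/
def Poss (a b : ℕ) (c : ℤ) : Prop :=
  0 < a ∧ 0 < b ∧ c ≠ 0 ∧ Nat.Coprime a b ∧ IsCoprime (a : ℤ) c ∧ IsCoprime (b : ℤ) c ∧ ¬ (Odd a ∧ Odd b ∧ Odd c)

/-- The conditions hold, the conclusion does not. -/
def BadG (a b : ℕ) (c : ℤ) : Prop := Poss a b c ∧ ¬ TrueCase a b c

/-- Two clusters of `K` integers for the pair `(a, b)`. -/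
def TCG (a b K : ℕ) : Prop := ∀ X Y : Finset ℤ, #X = K → #Y = K →
  (∀ x ∈ X, ∀ y ∈ Y, Poss a b (a * x - b * y)) → ∃ x ∈ X, ∃ y ∈ Y, TrueCase a b (a * x - b * y)

open Classical in
/-- Power saving for the bad `c` of the pair `(a, b)`. -/
def SparseG (a b K : ℕ) (C : ℝ) : Prop := ∀ (u : ℤ) (N : ℕ),
  (#{c ∈ Ioc u (u + N) | BadG a b c} : ℝ) ≤ C * (N : ℝ) ^ (1 - 1 / (K : ℝ))

/-- The numerator of `a : b` in lowest terms. -/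
def lo (a b : ℕ) : ℕ := a / Nat.gcd a b

/-- (B): every three terms of a geometric progression with quotient `a₀ : b₀` contain a ratio with a positive proportion
of true `c`, uniformly. -/
def Geo (a₀ b₀ : ℕ) : Prop := ∃ C : ℕ, ∀ a b : ℕ, 0 < a → 0 < b → Nat.Coprime a b → ∀ X : ℕ, C * (a + b) ≤ X →
  ∃ j ≤ 2, X ≤ C * (a + b) *
    {c : ℤ | |c| ≤ X ∧ TrueCase (lo (a * a₀ ^ j) (b * b₀ ^ j)) (lo (b * b₀ ^ j) (a * a₀ ^ j)) c}.ncard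

/-- Row GSP (medium; `theorem GSP (h : KSB_stmt) : GSP_stmt`).  As SPA.  Let `C₀` be the constant of KSB, `N ≥ 1`, `F` the set of the
bad `c` in the interval `(u, u + N]`.  `L = Ioc 0 (b₀ N)`; every `c ∈ F` has exactly `N` numbers `x ∈ L` with `b₀ ∣ a₀ x - c` (`a₀`, `b₀`
coprime), `y = (a₀ x - c)/b₀` lies in an interval `R` of at most `(a₀ + 2) N` integers.  With `N' = (a₀ + b₀ + 2) N`: `#L ≤ N'`,
`#R ≤ 2 N'`, `#E = N #F`.  If `#F > C₀ (a₀ + b₀ + 2)^2 N^(1-1/K)` then `#E > C₀ N'^(2-1/K)` and KSB gives `X`, `Y` with all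
`a₀ x - b₀ y ∈ F`, which contradicts `TCG` (BadG contains Poss).  `C = C₀ (a₀ + b₀ + 2)^2`. -/
def GSP_stmt : Prop := ∀ K a₀ b₀ : ℕ, 1 ≤ K → 0 < a₀ → 0 < b₀ → Nat.Coprime a₀ b₀ → TCG a₀ b₀ K →
  ∃ C : ℝ, 0 < C ∧ SparseG a₀ b₀ K C

/-- Row GPI (short).  As PIG without the translation: `¬ TCG a₀ b₀ (k P)` gives `X`, `Y` with `k P` elements, all
`a₀ x - b₀ y` bad; pigeonhole modulo `P` in `X` and in `Y`. -/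
def GPI_stmt : Prop := ∀ k P a₀ b₀ : ℕ, 1 ≤ k → 1 ≤ P → ¬ TCG a₀ b₀ (k * P) →
  ∃ (X Y : Finset ℤ) (α β : ℤ), #X = k ∧ #Y = k ∧ (∀ x ∈ X, (P : ℤ) ∣ x - α) ∧ (∀ y ∈ Y, (P : ℤ) ∣ y - β) ∧
    ∀ x ∈ X, ∀ y ∈ Y, BadG a₀ b₀ (a₀ * x - b₀ * y)

/-- Row GHS (short to medium).  Chinese remainder theorem over the primes `l ≤ m`: `g` mod `l` must avoid the class `-α/b₀` if
`l ∤ b₀` and the class `-β/a₀` if `l ∤ a₀`; if `l ∣ b₀` then `l ∤ x` since `l` is prime to `a₀ x - b₀ y` (`Poss`), if `l ∣ a₀` then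
`l ∤ y`.  `l ≥ 3`: at most two classes of three or more.  `l = 2`: if `a₀ b₀` is even only one of the two conditions is there;
if `a₀`, `b₀` are odd then `a₀ x - b₀ y` is even (`Poss`), so `α ≡ β` mod 2 and the two classes are equal.  (`X`, `Y` not
empty; all `x ≡ α`, `y ≡ β` modulo every `l ≤ m`, since `l ∣ m!`.) -/
def GHS_stmt : Prop := ∀ (m a₀ b₀ : ℕ) (X Y : Finset ℤ) (α β : ℤ), X.Nonempty → Y.Nonempty →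
  (∀ x ∈ X, ((m.factorial : ℕ) : ℤ) ∣ x - α) → (∀ y ∈ Y, ((m.factorial : ℕ) : ℤ) ∣ y - β) →
  (∀ x ∈ X, ∀ y ∈ Y, Poss a₀ b₀ (a₀ * x - b₀ * y)) →
  ∃ g : ℤ, ∀ l : ℕ, l.Prime → l ≤ m → (∀ x ∈ X, ¬ (l : ℤ) ∣ b₀ * g + x) ∧ ∀ y ∈ Y, ¬ (l : ℤ) ∣ a₀ * g + y

/-- Row GFT (medium; `theorem GFT (h : SOL_stmt) : GFT_stmt`).  For every prime `l` with `l ≤ 4k` or `l ∣ a b a₀ b₀` choose classes
`h_l`, `h'_l` mod `l` with `A h_l - B h'_l ≡ c₁` and the four conclusions: `l ≤ 4k`: `h_l = h'_l = g`.  `l > 4k`, `l ∣ B` (so `l ∤ A`):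
`h_l ≡ c₁/A`; `b₀ h_l + x ≡ 0` would give `b₀ c₁ + A x ≡ 0`, excluded, the same for `y`; `h'_l` any class with `b₀ h' + x ≢ 0`,
`a₀ h' + y ≢ 0` for all `x`, `y`: at most `2k < l` classes are excluded (if `l ∣ b₀` then `l ∤ x` by `Poss`, nothing is excluded; the
same for `l ∣ a₀`).  `l > 4k`, `l ∣ A`: symmetric (`h'_l ≡ -c₁/B`).  `l > 4k`, `l ∤ A B`: `h_l` must avoid at most `2k` classes, and
`h'_l = (A h_l - c₁)/B` must avoid at most `2k` classes: at most `4k < l` classes for `h_l`.  Chinese remainder theorem,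
then SOL with `P` the product of these primes. -/
def GFT_stmt : Prop := ∀ (k a b a₀ b₀ A B : ℕ) (X Y : Finset ℤ) (g c₁ : ℤ), 0 < a → 0 < b → Nat.Coprime A B →
  #X = k → #Y = k → X.Nonempty → Y.Nonempty → (∀ x ∈ X, ∀ y ∈ Y, Poss a₀ b₀ (a₀ * x - b₀ * y)) →
  (∀ l : ℕ, l.Prime → l ≤ 4 * k → (∀ x ∈ X, ¬ (l : ℤ) ∣ b₀ * g + x) ∧ ∀ y ∈ Y, ¬ (l : ℤ) ∣ a₀ * g + y) →
  (((4 * k).factorial : ℕ) : ℤ) ∣ c₁ - (A * g - B * g) →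
  (∀ l : ℕ, l.Prime → 4 * k < l → l ∣ B → (∀ x ∈ X, ¬ (l : ℤ) ∣ b₀ * c₁ + A * x) ∧ ∀ y ∈ Y, ¬ (l : ℤ) ∣ a₀ * c₁ + A * y) →
  (∀ l : ℕ, l.Prime → 4 * k < l → l ∣ A → (∀ x ∈ X, ¬ (l : ℤ) ∣ b₀ * c₁ - B * x) ∧ ∀ y ∈ Y, ¬ (l : ℤ) ∣ a₀ * c₁ - B * y) →
  ∃ h h' : ℤ, (A : ℤ) * h - B * h' = c₁ ∧ ∀ l : ℕ, l.Prime → (l ≤ 4 * k ∨ l ∣ a * b * (a₀ * b₀)) →
    (∀ x ∈ X, ¬ (l : ℤ) ∣ b₀ * h + x ∧ ¬ (l : ℤ) ∣ b₀ * h' + x) ∧ ∀ y ∈ Y, ¬ (l : ℤ) ∣ a₀ * h + y ∧ ¬ (l : ℤ) ∣ a₀ * h' + y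

/-- Admissibility of the four clusters. -/
def AdG (a b a₀ b₀ : ℕ) (X Y : Finset ℤ) (h h' : ℤ) : Prop := ∀ p : ℕ, p.Prime → ∃ n : ℕ,
  (∀ x ∈ X, ¬ (p : ℤ) ∣ (b * b₀ ^ 2 : ℕ) * n + (b₀ * h + x) ∧ ¬ (p : ℤ) ∣ (a * a₀ * b₀ : ℕ) * n + (b₀ * h' + x)) ∧
  ∀ y ∈ Y, ¬ (p : ℤ) ∣ (b * b₀ * a₀ : ℕ) * n + (a₀ * h + y) ∧ ¬ (p : ℤ) ∣ (a * a₀ ^ 2 : ℕ) * n + (a₀ * h' + y)

/-- Row GLC (short; `theorem GLC (h : LNV_stmt) : GLC_stmt`).  `p ≤ 4k` or `p ∣ a b a₀ b₀`: `n = 0`.  Otherwise `p > 4k` and `p` divides none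
of the four slopes: LNV for the at most `4k` forms. -/
def GLC_stmt : Prop := ∀ (k a b a₀ b₀ : ℕ) (X Y : Finset ℤ) (h h' : ℤ), #X = k → #Y = k →
  (∀ l : ℕ, l.Prime → (l ≤ 4 * k ∨ l ∣ a * b * (a₀ * b₀)) →
    (∀ x ∈ X, ¬ (l : ℤ) ∣ b₀ * h + x ∧ ¬ (l : ℤ) ∣ b₀ * h' + x) ∧ ∀ y ∈ Y, ¬ (l : ℤ) ∣ a₀ * h + y ∧ ¬ (l : ℤ) ∣ a₀ * h' + y) →
  AdG a b a₀ b₀ X Y h h'

/-- Row GAR (short to medium).  `g = gcd (a a₀) (b b₀)` divides `a a₀ b₀` and `b a₀ b₀`, so it divides `a₀ b₀ gcd(a,b) = a₀ b₀`.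
`A = lo (a a₀) (b b₀)`, `B = lo (b b₀) (a a₀)`, `A' = lo (a a₀²) (b b₀²)`, `B' = lo (b b₀²) (a a₀²)`: `A' b₀ B = B' a₀ A`, `A`, `B` coprime, so
`A ∣ A' b₀`, `A' b₀ = κ A` and `B' a₀ = κ B`.  With `g' = gcd (a a₀²) (b b₀²)`: `κ g' = a₀ b₀ g` and `g ∣ g'`, so `κ ≤ a₀ b₀`. -/
def GAR_stmt : Prop := ∀ a b a₀ b₀ : ℕ, 0 < a → 0 < b → 0 < a₀ → 0 < b₀ → Nat.Coprime a b → Nat.Coprime a₀ b₀ →
  Nat.gcd (a * a₀) (b * b₀) ≤ a₀ * b₀ ∧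
  ∃ κ : ℕ, 1 ≤ κ ∧ κ ≤ a₀ * b₀ ∧ lo (a * a₀ ^ 2) (b * b₀ ^ 2) * b₀ = κ * lo (a * a₀) (b * b₀) ∧
    lo (b * b₀ ^ 2) (a * a₀ ^ 2) * a₀ = κ * lo (b * b₀) (a * a₀)

/-- One of the three ratios has the true value `κ c₁ + a' z - b' z'`. -/
def Hit (a b a₀ b₀ D : ℕ) (c₁ : ℤ) (j κ : ℕ) : Prop :=
  lo (a * a₀ ^ j) (b * b₀ ^ j) + lo (b * b₀ ^ j) (a * a₀ ^ j) ≤ κ * (lo (a * a₀) (b * b₀) + lo (b * b₀) (a * a₀)) ∧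
  ∃ z z' : ℤ, |z| ≤ D ∧ |z'| ≤ D ∧ TrueCase (lo (a * a₀ ^ j) (b * b₀ ^ j)) (lo (b * b₀ ^ j) (a * a₀ ^ j))
    (κ * c₁ + lo (a * a₀ ^ j) (b * b₀ ^ j) * z - lo (b * b₀ ^ j) (a * a₀ ^ j) * z')

/-- Row GGP (medium to long; `theorem GGP (hTRC : TRC_stmt) (hGAR : GAR_stmt) : GGP_stmt`).  `A = lo (a a₀) (b b₀)`,
`B = lo (b b₀) (a a₀)`, `g = gcd (a a₀) (b b₀)` (`g A = a a₀`, `g B = b b₀`), `A'`, `B'`, `κ` as in GAR, `c₁ = A h - B h' > D (A + B)`.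
`S 0 = {(b b₀², b₀ h + x)}`, `S 1 = {(b b₀ a₀, a₀ h + y)}`, `S 2 = {(a a₀ b₀, b₀ h' + x)}`, `S 3 = {(a a₀², a₀ h' + y)}`: images of `X`,
`Y`, `k` elements each.  For `v = (s, x₁)`, `w = (t, y₁)` look at `t x₁ - s y₁`:
`S 0, S 0`: `s = t`, `x₁ ≠ y₁`; the same for `S i, S i`.
`S 0, S 1` and `S 2, S 3`: a positive multiple of `a₀ x - b₀ y ≠ 0`.
`S 0, S 2`: `s = (b₀ g) B`, `t = (b₀ g) A`, `A (b₀ h + x) - B (b₀ h' + x') = b₀ c₁ + A x - B x'`; `j = 1`, `κ = b₀`.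
`S 1, S 3`: `s = (a₀ g) B`, `t = (a₀ g) A`, `a₀ c₁ + A y - B y'`; `j = 1`, `κ = a₀`.
`S 1, S 2`: `s = (a₀ b₀) b`, `t = (a₀ b₀) a`, `a (a₀ h + y) - b (b₀ h' + x) = g c₁ + a y - b x`; `j = 0`, `κ = g ≤ a₀ b₀`, `a + b ≤ g (A + B)`.
`S 0, S 3`: `s = g' B'`, `t = g' A'`, `A' (b₀ h + x) - B' (a₀ h' + y) = κ c₁ + A' x - B' y`; `j = 2`; `A' + B' ≤ A' b₀ + B' a₀ = κ (A + B)`.
In the last four cases the value is `> 0`: `|a' z - b' z'| ≤ D (a' + b') ≤ D κ (A + B) < κ c₁`.  So all forms of different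
clusters are different and not proportional, `BlcK k` applies.  `S 0, S 1` or `S 2, S 3` both prime: TRC (`g = b b₀` or `a a₀`, pair
`(a₀, b₀)`) contradicts `BadG`.  Otherwise TRC in one of the last four cases (`Both` is symmetric) gives the claim. -/
def GGP_stmt : Prop := ∀ (k a b a₀ b₀ D : ℕ) (X Y : Finset ℤ) (h h' : ℤ), BlcK k → 0 < a → 0 < b → Nat.Coprime a b →
  0 < a₀ → 0 < b₀ → Nat.Coprime a₀ b₀ → #X = k → #Y = k → (∀ x ∈ X, |x| ≤ D) → (∀ y ∈ Y, |y| ≤ D) →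
  (∀ x ∈ X, ∀ y ∈ Y, BadG a₀ b₀ (a₀ * x - b₀ * y)) → AdG a b a₀ b₀ X Y h h' →
  (D : ℤ) * (lo (a * a₀) (b * b₀) + lo (b * b₀) (a * a₀)) < lo (a * a₀) (b * b₀) * h - lo (b * b₀) (a * a₀) * h' →
  ∃ j ≤ 2, ∃ κ : ℕ, 1 ≤ κ ∧ κ ≤ a₀ * b₀ ∧
    Hit a b a₀ b₀ D (lo (a * a₀) (b * b₀) * h - lo (b * b₀) (a * a₀) * h') j κ

/-- Row GWN (medium; `theorem GWN (hGHS : GHS_stmt) (hJAC : JAC_stmt) (hGFT : GFT_stmt) (hGLC : GLC_stmt) (hGGP : GGP_stmt) :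
GWN_stmt`).  `D` = a bound for `|z|`, `z ∈ X ∪ Y`.  `g` from GHS (`m = 4k`).  `C` from JAC with `κ = 2k`.  Given `a`, `b`, `u`: `A`, `B` as in
GGP (coprime), JAC with `m = A B` (`√(A B) ≤ A + B`), the residue `A g - B g`, and for `l ∣ B` the classes of `c₁` with
`b₀ c₁ ≡ -A x` (one class if `l ∤ b₀`; if `l ∣ b₀` no class is needed: `l ∤ A x` by `Poss` and since `l ∤ A`) or `a₀ c₁ ≡ -A y`; for
`l ∣ A`: `b₀ c₁ ≡ B x`, `a₀ c₁ ≡ B y`: at most `2k` classes.  GFT, GLC, GGP. -/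
def GWN_stmt : Prop := ∀ (k a₀ b₀ : ℕ) (X Y : Finset ℤ) (α β : ℤ), 1 ≤ k → BlcK k → 0 < a₀ → 0 < b₀ → Nat.Coprime a₀ b₀ →
  #X = k → #Y = k → (∀ x ∈ X, (((4 * k).factorial : ℕ) : ℤ) ∣ x - α) → (∀ y ∈ Y, (((4 * k).factorial : ℕ) : ℤ) ∣ y - β) →
  (∀ x ∈ X, ∀ y ∈ Y, BadG a₀ b₀ (a₀ * x - b₀ * y)) →
  ∃ C D : ℕ, ∀ a b : ℕ, 0 < a → 0 < b → Nat.Coprime a b → ∀ u : ℤ,
    (D : ℤ) * (lo (a * a₀) (b * b₀) + lo (b * b₀) (a * a₀)) ≤ u →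
    ∃ c₁ : ℤ, u < c₁ ∧ c₁ ≤ u + C * (lo (a * a₀) (b * b₀) + lo (b * b₀) (a * a₀)) ∧
      ∃ j ≤ 2, ∃ κ : ℕ, 1 ≤ κ ∧ κ ≤ a₀ * b₀ ∧ Hit a b a₀ b₀ D c₁ j κ

/-- Row GCT (medium; counting).  `H = A + B ≤ a a₀ + b b₀ ≤ a₀ b₀ (a + b)`, `H ≥ 1`.  `T = X / (a₀ b₀ (C + 5 D + 1) H)` (natural division),
windows `u_t = (D + t (C + 3 D + 1)) H`, `t < T`: `c₁(t)` with `Hit ... j(t) κ(t)`.  Pigeonhole: at least `T/(3 a₀ b₀)` of the `t` have the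
same `(j, κ)`.  The value `c(t) = κ c₁(t) + a' z - b' z'` satisfies `|c(t) - κ c₁(t)| ≤ D (a' + b') ≤ D κ H`, and
`c₁(t + 1) - c₁(t) > (3 D + 1) H - ...`: `c₁(t') - c₁(t) > (3 D + 1) H` for `t < t'` (`u_{t'} - u_t - C H ≥ (3D + 1) H`), so the values
`c(t)` with the same `(j, κ)` are different, and `|c(t)| ≤ κ (c₁(t) + D H) ≤ a₀ b₀ (D + t (C + 3 D + 1) + C + D) H ≤ a₀ b₀ (t + 1) (C + 5 D + 1) H ≤ X`.
For `X ≥ C' (a + b)` with a large `C' = C'(a₀, b₀, C, D)`: `T ≥ X/(2 a₀ b₀ (C + 5 D + 1) H)` and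
`#{...} ≥ T/(3 a₀ b₀) ≥ X/(C' (a + b))`. -/
def GCT_stmt : Prop := ∀ a₀ b₀ C D : ℕ, 0 < a₀ → 0 < b₀ →
  (∀ a b : ℕ, 0 < a → 0 < b → Nat.Coprime a b → ∀ u : ℤ,
    (D : ℤ) * (lo (a * a₀) (b * b₀) + lo (b * b₀) (a * a₀)) ≤ u →
    ∃ c₁ : ℤ, u < c₁ ∧ c₁ ≤ u + C * (lo (a * a₀) (b * b₀) + lo (b * b₀) (a * a₀)) ∧
      ∃ j ≤ 2, ∃ κ : ℕ, 1 ≤ κ ∧ κ ≤ a₀ * b₀ ∧ Hit a b a₀ b₀ D c₁ j κ) →
  Geo a₀ b₀

/-- The theorem for every ratio. -/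
def ALTG_stmt : Prop := ∃ K : ℕ, 1 ≤ K ∧ ∀ a₀ b₀ : ℕ, 0 < a₀ → 0 < b₀ → Nat.Coprime a₀ b₀ →
  (TCG a₀ b₀ K ∧ ∃ C : ℝ, SparseG a₀ b₀ K C) ∨ Geo a₀ b₀

/-- Assembly (done here). -/
theorem ALTG_of (hBLC : BLC_stmt) (hGSP : GSP_stmt) (hGPI : GPI_stmt) (hGWN : GWN_stmt) (hGCT : GCT_stmt) :
    ALTG_stmt := by
  obtain ⟨k, hk, hB⟩ := hBLC
  have hP : 1 ≤ (4 * k).factorial := Nat.factorial_pos _
  have hK : 1 ≤ k * (4 * k).factorial := Nat.one_le_iff_ne_zero.2 (Nat.mul_ne_zero (by omega) (by omega))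
  refine ⟨k * (4 * k).factorial, hK, fun a₀ b₀ ha₀ hb₀ hab₀ => ?_⟩
  by_cases h : TCG a₀ b₀ (k * (4 * k).factorial)
  · obtain ⟨C, -, hC⟩ := hGSP _ a₀ b₀ hK ha₀ hb₀ hab₀ h
    exact Or.inl ⟨h, C, hC⟩
  · right
    obtain ⟨X, Y, α, β, hX, hY, hα, hβ, hbad⟩ := hGPI k (4 * k).factorial a₀ b₀ hk hP h
    obtain ⟨C, D, hCD⟩ := hGWN k a₀ b₀ X Y α β hk hB ha₀ hb₀ hab₀ hX hY hα hβ hbad
    exact hGCT a₀ b₀ C D ha₀ hb₀ hCD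

end Pool.Agent.AL
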