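import Pool.Agent.helper85.FC.CaseDefs
import Pool.Agent.helper11.MK.Defs

/-!
# Project AL (MP_bf63dc_nt), hand-in 1: the alternative

THEOREM. At least one of (i), (ii) holds.
(i) There is `K ≥ 1` such that for all finite sets `X`, `Y` of `K` integers each with `x ≠ y` and `y - x` even for all
`x ∈ X`, `y ∈ Y`, some `y - x` is a difference of infinitely many pairs of primes, and every interval of `N` integers
contains at most `N^(1-1/K)` even `c ≠ 0` which are not.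
(ii) (α) There is `C` such that for ALL coprime `a, b ≥ 1` every interval of length `C (a + b)` contains a `c` for which
`(a, b, c)` is a true case of Q1. (β) For all coprime `a, b ≥ 1`, `ε > 0` and `M ≥ M₀(a, b, ε)` every interval of `M`
integers contains at least `(1/12 - ε) ∏_{l ∣ ab, l ≥ 5} (1 - 2/l) M` such `c`.

PROOF.  K = k (4k)!, k from the theorem CM4 (two primes in four clusters).  If two clusters of `K` never fail, (i) follows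
by Kovari-Sos-Turan (SPA, UNI).  If two clusters fail for every `K`: for all `L`, `W` there are `X ⊂ W ℤ`, `Y ⊂ u₀ + W ℤ`
with `L` elements, all `y - x` bad (PIG).  For integers `h`, `h'` look at the four clusters `b n + h + x`, `b n + h + y`,
`a n + h' + x'`, `a n + h' + y'`: two forms of different clusters are prime together; the differences `y - x` are bad, so one
form has slope `b`, the other slope `a` (GP1), and `a (h + z) - b (h' + z')` is a true `c` for `(a, b)`.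
(α): `k` elements each, `W = (4k)!`; a sieve lemma (JAC) gives `h`, `h'`.
(β): `L` large, `W = 6 a b (4k)!`; the box lemma shows that for every locally possible `c₀ = a h - b h'` at least
`(1 - ε) L²` of the `4 L²` numbers `c₀ + a z - b z'` are true (GPC); average over `c₀` (SUM, CNT, M3).

RULES.  Every row is one file `Pool/Agent/<seat>/AL/<ROW>.lean`, `import Pool.Agent.helper7.AL.Spec`, namespace
`Pool.Agent.AL`, auxiliary lemmas prefixed `<ROW>_`; other rows only as hypotheses.  No double quotes, no convert,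
no congr!, no native_decide.
-/

set_option autoImplicit false

namespace Pool.Agent.AL

open Finset Pool.Agent.helper85.FC Pool.Agent.helper11.MK

/-- An even `c ≠ 0` which is not the difference of infinitely many pairs of primes. -/
def Bad (c : ℤ) : Prop := c ≠ 0 ∧ Even c ∧ ¬ TrueCase 1 1 c

/-- First clause of (i). -/
def TwoClusters (K : ℕ) : Prop := ∀ X Y : Finset ℤ, #X = K → #Y = K →
  (∀ x ∈ X, ∀ y ∈ Y, x ≠ y ∧ Even (y - x)) → ∃ x ∈ X, ∃ y ∈ Y, TrueCase 1 1 (y - x)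

open Classical in
/-- Second clause of (i), with a constant. -/
def Sparse (K : ℕ) (C : ℝ) : Prop := ∀ (u : ℤ) (N : ℕ),
  (#{c ∈ Ioc u (u + N) | Bad c} : ℝ) ≤ C * (N : ℝ) ^ (1 - 1 / (K : ℝ))

/-- (ii) (α): bounded gaps between the true `c`, uniformly in the pair. -/
def Gaps : Prop := ∃ C : ℕ, ∀ a b : ℕ, 0 < a → 0 < b → Nat.Coprime a b → ∀ u : ℤ,
  ∃ c ∈ Ioc u (u + C * (a + b)), TrueCase a b c

open Classical in
/-- (ii) (β): positive lower density in every long interval, for every pair. -/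
def Quarter : Prop := ∀ a b : ℕ, 0 < a → 0 < b → Nat.Coprime a b → ∀ ε : ℝ, 0 < ε → ∃ M₀ : ℕ, ∀ M : ℕ, M₀ ≤ M →
  ∀ u : ℤ, (1 / 12 - ε) * (∏ l ∈ (a * b).primeFactors with 5 ≤ l, (1 - 2 / (l : ℝ))) * M ≤
    #{c ∈ Ioc u (u + M) | TrueCase a b c}

/-- The form `v = (s, x)` is `s n + x`. Both forms are prime for infinitely many `n`. -/
def Both (v w : ℕ × ℤ) : Prop :=
  {n : ℕ | ((v.1 : ℤ) * n + v.2).toNat.Prime ∧ ((w.1 : ℤ) * n + w.2).toNat.Prime}.Infinite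

/-! ## Combinatorics -/

/-- Row KSB (medium; Kovari, Sos, Turan).  `d(y)` = number of `x ∈ L` with `(x,y) ∈ E`.  `∑_y d(y)^K` is the number of
the pairs (tuple `f : Fin K → L`, `y ∈ R`) with all `(f i, y) ∈ E`.  Injective tuples: if no `X × Y` exists, the image
`X` of `f` (a set of `K` elements) has at most `K - 1` such `y`: at most `(K - 1) N^K` pairs.  Not injective: at most
`K^2 N^(K-1)` tuples (choose `i < j` with `f i = f j`), times `#R ≤ 2 N`.  So `∑ d(y)^K ≤ 3 K^2 N^K`, and by the power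
mean inequality (`inner_le_nnorm_mul_nnorm`, `Finset.inner_mul_le_norm_mul_norm`, or better `Real.pow_sum_div_card_le_sum_pow`,
`inner_le..`) `(#E)^K = (∑ d)^K ≤ (2N)^(K-1) ∑ d^K ≤ 2^(K-1) 3 K^2 N^(2K-1)`, so
`#E ≤ (2^(K-1) 3 K^2)^(1/K) N^(2-1/K)`.  (`N = 0`: `E` is empty, the hypothesis fails.)  Any constant `C` depending on `K` is
fine; induction or the convexity of binomial coefficients may be used instead. -/
def KSB_stmt : Prop := ∀ K : ℕ, 1 ≤ K → ∃ C : ℝ, 0 < C ∧ ∀ (N : ℕ) (L R : Finset ℤ) (E : Finset (ℤ × ℤ)),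
  #L ≤ N → #R ≤ 2 * N → E ⊆ L ×ˢ R → C * (N : ℝ) ^ (2 - 1 / (K : ℝ)) < #E →
  ∃ X ⊆ L, ∃ Y ⊆ R, #X = K ∧ #Y = K ∧ ∀ x ∈ X, ∀ y ∈ Y, (x, y) ∈ E

/-- Row SPA (short to medium).  `C` from KSB.  `N = 0`: the count is 0.  `N ≥ 1`: `L = Ioc 0 N`, `R = Ioc u (u + 2N)`,
`E` = the `(x, y)` in `L × R` with `Bad (y - x)` and `u < y - x ≤ u + N`; every bad `c` in the interval gives the `N`
pairs `(x, x + c)`, so `#E = N * #{bad c}`.  If the bound fails, `#E > C N * N^(1-1/K) = C N^(2-1/K)` and KSB gives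
`X`, `Y` with `Bad (y - x)` for all `x`, `y`, which contradicts `TwoClusters K` (`Bad` contains `≠ 0`, `Even`, `¬ TrueCase`). -/
def SPA_stmt : Prop := ∀ K : ℕ, 1 ≤ K → ∃ C : ℝ, 0 < C ∧ (TwoClusters K → Sparse K C)

/-- Row UNI (short to medium).  `K' = 2 K t`, `t ≥ 1` with `(3/2)^t ≥ C`.  `TwoClusters` is monotone in `K` (take subsets
with `K` elements).  Bound: `N = 0`: the count is 0.  An interval of `N` integers contains at most `(N + 1)/2` even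
numbers; this is `≤ N^(1-1/K')` for `N = 1, 2` and for `3 ≤ N ≤ (3/2)^K'` (`N^(1/K') ≤ 3/2 ≤ 2N/(N+1)`).  For
`N > (3/2)^K'`: `C N^(1-1/K) ≤ N^(1-1/K')` since `N^(1/K - 1/K') ≥ N^(1/(2K)) ≥ (3/2)^t ≥ C`. -/
def UNI_stmt : Prop := ∀ (K : ℕ) (C : ℝ), 1 ≤ K → 0 < C → TwoClusters K → Sparse K C →
  ∃ K' : ℕ, 1 ≤ K' ∧ TwoClusters K' ∧ Sparse K' 1

/-- Row PIG (short).  `¬ TwoClusters (k P)` gives `X`, `Y` with `k P` elements and `Bad (y - x)` for all; one of the `P`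
classes mod `P` contains at least `k` elements of `X` (`Finset.exists_le_card_fiber_of_mul_le_card_of_maps_to` with
the map `x ↦ x % P` to `Ico 0 P`), the same for `Y`; take subsets of exactly `k` elements, then translate both by the same
integer `- α` where `α` is the class of `X`.  `Even u₀` follows from `2 ∣ P`, `k ≥ 1` and the evenness of `y - x`. -/
def PIG_stmt : Prop := ∀ k P : ℕ, 1 ≤ k → 1 ≤ P → 2 ∣ P → ¬ TwoClusters (k * P) →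
  ∃ (X Y : Finset ℤ) (u₀ : ℤ), #X = k ∧ #Y = k ∧ Even u₀ ∧ (∀ x ∈ X, (P : ℤ) ∣ x) ∧ (∀ y ∈ Y, (P : ℤ) ∣ y - u₀) ∧
    ∀ x ∈ X, ∀ y ∈ Y, Bad (y - x)

/-! ## Primes in four clusters -/

/-- The conclusion of BLC for the number `k`. -/
def BlcK (k : ℕ) : Prop := ∀ S : Fin 4 → Finset (ℕ × ℤ), (∀ i, #(S i) = k) →
  (∀ i j, i ≠ j → Disjoint (S i) (S j)) → (∀ i, ∀ v ∈ S i, 0 < v.1) →
  (∀ i j, ∀ v ∈ S i, ∀ w ∈ S j, v ≠ w → (v.1 : ℤ) * w.2 ≠ w.1 * v.2) →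
  (∀ p : ℕ, p.Prime → ∃ n : ℕ, ∀ i, ∀ v ∈ S i, ¬ (p : ℤ) ∣ v.1 * n + v.2) →
  ∃ i j, i ≠ j ∧ ∃ v ∈ S i, ∃ w ∈ S j, Both v w

/-- Row BLC (short to medium; `theorem BLC (h : CM4_stmt) : BLC_stmt`).  `k = kc` from `CM4_stmt`.
Enumerate `S i` by `Fin k` (`Finset.equivFinOfCardEq`), `form t = e_{(finProdFinEquiv.symm t).1} (finProdFinEquiv.symm t).2`
for `t : Fin (4 * k)`, `A t = (form t).1`, `B t = (form t).2`; different `t` give different forms because the `S i` are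
disjoint.  `CM4_stmt` gives for every `N` some `n ≥ N` and a pair in different clusters; there are finitely many
pairs, so one pair works for infinitely many `n` (as in `GR4_blocks`, Pool/Agent/helper11/MK/GR.lean). -/
def BLC_stmt : Prop := ∃ k : ℕ, 1 ≤ k ∧ BlcK k

/-- Row TRC (medium).  `p = s n + x`, `q = t n + y`, `s = g b`, `t = g a`: `a p - b q = a x - b y =: c` for every `n` of the
set (both `toNat` are prime, so the integers are positive), and `n ↦ (p, q)` is injective: infinitely many pairs.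
`c ≠ 0` by hypothesis.  If a prime `l` divides `a` and `c` then `l ∣ b q`, `l ∤ b`, so `q = l` for all these `n`, which is
impossible for two different `n`; the same for `b`.  If `a`, `b`, `c` are odd: some `n` has `p, q > 2`, both odd, and
`a p - b q` is even.  (Compare `PU_tc` in Pool/Agent/helper42/TX/PU.lean.) -/
def TRC_stmt : Prop := ∀ (g a b : ℕ) (x y : ℤ), 0 < g → 0 < a → 0 < b → Nat.Coprime a b →
  (a : ℤ) * x ≠ b * y → Both (g * b, x) (g * a, y) → TrueCase a b (a * x - b * y)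

/-- Row GP1 (medium; `theorem GP1 (h : TRC_stmt) : GP1_stmt`).  `S 0 = {(b, h + x)}`, `x ∈ X₁`, `S 1 = {(b, h + y)}`,
`y ∈ Y₁`, `S 2 = {(a, h' + x)}`, `x ∈ X₂`, `S 3 = {(a, h' + y)}`, `y ∈ Y₂` (images under injective maps, `k` elements each).
Disjoint: `x ≠ y` (`Bad (y - x)` contains `y - x ≠ 0`), and an equality between `S 0 ∪ S 1` and `S 2 ∪ S 3` would mean `a = b`
and `h + z = h' + z'`, so `a (h + z) = b (h' + z')`.  Not proportional: equal slopes and different shifts, or the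
hypothesis.  The last hypothesis is admissibility.  `BlcK k` gives a pair in different `S i`, `S j`.  Both in slope `b`
(`S 0`, `S 1`): TRC with `g = b`, `a = b = 1` shows `TrueCase 1 1 (y - x)` or `TrueCase 1 1 (x - y)`; the second gives
the first by exchanging the primes; contradiction to `Bad (y - x)`; the same for slope `a`.  Otherwise one has slope `b`,
the other slope `a`: (`Both` is symmetric) TRC with `g = 1` gives the claim. -/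
def GP1_stmt : Prop := ∀ (k a b : ℕ) (X₁ Y₁ X₂ Y₂ : Finset ℤ) (h h' : ℤ), BlcK k → 0 < a → 0 < b → Nat.Coprime a b →
  #X₁ = k → #Y₁ = k → #X₂ = k → #Y₂ = k → (∀ x ∈ X₁, ∀ y ∈ Y₁, Bad (y - x)) → (∀ x ∈ X₂, ∀ y ∈ Y₂, Bad (y - x)) →
  (∀ z ∈ X₁ ∪ Y₁, ∀ z' ∈ X₂ ∪ Y₂, (a : ℤ) * (h + z) ≠ b * (h' + z')) →
  (∀ p : ℕ, p.Prime → ∃ n : ℕ, (∀ z ∈ X₁ ∪ Y₁, ¬ (p : ℤ) ∣ b * n + (h + z)) ∧
    ∀ z ∈ X₂ ∪ Y₂, ¬ (p : ℤ) ∣ a * n + (h' + z)) →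
  ∃ z ∈ X₁ ∪ Y₁, ∃ z' ∈ X₂ ∪ Y₂, TrueCase a b (a * (h + z) - b * (h' + z'))

/-- Row LNV (short).  For `(s, x) ∈ R` with `p ∤ s` one class of `n` mod `p` is excluded, for `p ∣ s` none; `#R < p`, so one of the
`n < p` is left (`Finset.exists_mem_notMem_of_card_lt_card` or pigeonhole on `range p`). -/
def LNV_stmt : Prop := ∀ (p : ℕ) (R : Finset (ℕ × ℤ)), p.Prime → #R < p → (∀ v ∈ R, p ∣ v.1 → ¬ (p : ℤ) ∣ v.2) →
  ∃ n : ℕ, ∀ v ∈ R, ¬ (p : ℤ) ∣ v.1 * n + v.2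

/-! ## (α): bounded gaps -/

/-- Row HST (short to medium).  Chinese remainder theorem over the prime factors `l` of `P` (`Nat.chineseRemainderOfFinset`, or
induction): for every prime `l` choose a class of `h` mod `l` different from `0` and `-u₀`: `l = 2`: `u₀` is even;
`l ≥ 3`: three classes, two excluded.  Then no prime divides `h` and `P`, or `h + u₀` and `P`. -/
def HST_stmt : Prop := ∀ (P : ℕ) (u₀ : ℤ), 0 < P → Even u₀ → ∃ h : ℤ, IsCoprime h (P : ℤ) ∧ IsCoprime (h + u₀) (P : ℤ)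

/-- Row SOL (short).  `c - (a g - b g') = P t`; Bezout: `a h₁ - b k₁ = t` (`a`, `b` coprime), `h = g + P h₁`,
`h' = g' + P k₁`. -/
def SOL_stmt : Prop := ∀ (a b P : ℕ) (g g' c : ℤ), Nat.Coprime a b → (P : ℤ) ∣ c - (a * g - b * g') →
  ∃ h h' : ℤ, (P : ℤ) ∣ h - g ∧ (P : ℤ) ∣ h' - g' ∧ (a : ℤ) * h - b * h' = c

/-- Row OMG (short to medium).  `A^ω(m) = ∏_{l ∣ m} A ≤ (∏_{l ≤ A^2} max A 1) * ∏_{l ∣ m, l > A^2} √l ≤ (A + 1)^(A^2+1) √m`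
(the product of the distinct primes dividing `m` is `≤ m`: `Nat.prod_primeFactors_dvd`, and `A ≤ √l` for `l ≥ A^2`). -/
def OMG_stmt : Prop := ∀ A : ℕ, ∃ C : ℕ, ∀ m : ℕ, 0 < m → (A : ℝ) ^ (#m.primeFactors) ≤ C * √(m : ℝ)

/-- Row JAC (medium; sieve lemma; `theorem JAC (h : OMG_stmt) : JAC_stmt`).  `P = (2κ)!` (its primes are `≤ 2κ`), `w` = number
of prime factors of `m`, `z = 4 κ w`.  Let `Q` = the product of the primes `l ∣ m`, `2κ < l ≤ z`; `Q ≤ primorial z ≤ 4^z`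
(`primorial_le_4_pow`).  By the Chinese remainder theorem there is `c₁` with `c₁ ≡ g` mod `P` and `c₁` mod `l` not in `B l`
for every `l ∣ Q` (`#(B l) ≤ κ < l`).  Look at `c = c₁' + j P Q`, `1 ≤ j ≤ J = 4κw + 1`, where `c₁' ≡ c₁` mod `P Q`,
`u - P Q < c₁' ≤ u`.  For `l ∣ m`, `l > max z (2κ)`: `l` does not divide `P Q`, so each of the `≤ κ` classes of `B l` contains at
most `J/l + 1` of the `j`: together at most `w κ (J/z + 1) ≤ J/4 + κ w < J` (for `w = 0` nothing is to be shown), so some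
`j` is good.  `u < c ≤ u + J P Q ≤ u + P (4κw + 1) 4^(4κw) ≤ u + P A^w` with `A = 4^(6κ)` (`4κw + 1 ≤ 4^(2κw)`), and OMG with
this `A`.  (Any other sieve argument with this bound is fine.) -/
def JAC_stmt : Prop := ∀ κ : ℕ, 1 ≤ κ → ∃ C : ℕ, ∀ (m : ℕ) (g : ℤ) (B : ℕ → Finset ℤ), 0 < m →
  (∀ l, #(B l) ≤ κ) → ∀ u : ℤ, ∃ c : ℤ, u < c ∧ (c : ℝ) ≤ u + C * √(m : ℝ) ∧
    (((2 * κ).factorial : ℕ) : ℤ) ∣ c - g ∧
    ∀ l ∈ m.primeFactors, 2 * κ < l → ∀ β ∈ B l, ¬ (l : ℤ) ∣ c - β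

/-- Row LCA (short to medium; `theorem LCA (h : LNV_stmt) : LCA_stmt`).  `p ≤ 4k` (then `p ∣ (4k)!`): `n = 0`: `h + z ≡ h` or
`h + u₀` mod `p`, not `0` by coprimality, and `h' ≡ h`.  `p > 4k`: LNV for the at most `4k < p` forms `(b, h + z)`, `(a, h' + z)`. -/
def LCA_stmt : Prop := ∀ (k a b : ℕ) (X Y : Finset ℤ) (u₀ h h' : ℤ), 1 ≤ k → #X = k → #Y = k →
  (∀ x ∈ X, (((4 * k).factorial : ℕ) : ℤ) ∣ x) → (∀ y ∈ Y, (((4 * k).factorial : ℕ) : ℤ) ∣ y - u₀) →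
  IsCoprime h (((4 * k).factorial : ℕ) : ℤ) → IsCoprime (h + u₀) (((4 * k).factorial : ℕ) : ℤ) →
  (((4 * k).factorial : ℕ) : ℤ) ∣ h' - h →
  (∀ l : ℕ, l.Prime → 4 * k < l → l ∣ b → ∀ z ∈ X ∪ Y, ¬ (l : ℤ) ∣ h + z) →
  (∀ l : ℕ, l.Prime → 4 * k < l → l ∣ a → ∀ z ∈ X ∪ Y, ¬ (l : ℤ) ∣ h' + z) →
  ∀ p : ℕ, p.Prime → ∃ n : ℕ, (∀ z ∈ X ∪ Y, ¬ (p : ℤ) ∣ b * n + (h + z)) ∧ ∀ z ∈ X ∪ Y, ¬ (p : ℤ) ∣ a * n + (h' + z)

/-- Row GP2 (medium; `theorem GP2 (hHST : HST_stmt) (hSOL : SOL_stmt) (hJAC : JAC_stmt) (hLCA : LCA_stmt) (hGP1 : GP1_stmt) :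
GP2_stmt`).  `P = (4k)!`, `κ = 2k`.  HST: `g` with `g`, `g + u₀` prime to `P`.  `D ≥ |z| + 1` for all `z ∈ X ∪ Y`.  Let `C₁` be
the constant of JAC.  Given `a`, `b`, `u`: for a prime `l ∣ b` let `B l` = the set of the `-a z`, for `l ∣ a`, `l ∤ b` the set of
the `b z` (`z ∈ X ∪ Y`; at most `2k` elements), else empty.  JAC with `m = a b`, `√(a b) ≤ a + b`, gives in every interval of
length `C₁ (a + b)` a `c₀ ≡ a g - b g` mod `P` avoiding these classes; SOL: `c₀ = a h - b h'`, `h ≡ h' ≡ g` mod `P` (so `h`,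
`h + u₀` are prime to `P`).  For `l ∣ b`, `l > 4k`: `c₀ ≡ a h`, so `l ∣ h + z` would give `c₀ ≡ -a z`; for `l ∣ a`:
`c₀ ≡ -b h'`, `l ∣ h' + z` would give `c₀ ≡ b z`.  LCA applies.  Choose the start `v` of the interval for `c₀` as
`u + D (a + b)` or `u + (C₁ + 4 D) (a + b)`: for one of the two choices the interval `(v, v + C₁ (a + b)]` does not meet
`[-D (a+b), D (a+b)]` (they are more than `2 D (a + b)` apart), so `|c₀| > D (a + b)` and `c₀ + a z - b z' ≠ 0`.  GP1 with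
`X₁ = X₂ = X`, `Y₁ = Y₂ = Y` gives `c = c₀ + a z - b z'`, `TrueCase a b c`, and `u < c ≤ u + (2 C₁ + 6 D) (a + b)`. -/
def GP2_stmt : Prop := ∀ (k : ℕ) (X Y : Finset ℤ) (u₀ : ℤ), 1 ≤ k → BlcK k → #X = k → #Y = k → Even u₀ →
  (∀ x ∈ X, (((4 * k).factorial : ℕ) : ℤ) ∣ x) → (∀ y ∈ Y, (((4 * k).factorial : ℕ) : ℤ) ∣ y - u₀) →
  (∀ x ∈ X, ∀ y ∈ Y, Bad (y - x)) → Gaps

/-! ## (β): positive density -/

open Classical in
/-- Row DPP (medium; density pigeonhole).  `0 < ε` (if `ε > 1` the hypothesis forces `T` empty, `A` or `B` empty; take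
`L₀ ≥ 1` and treat `B` empty separately, there any `A'` of `k` elements will do).  `N₀ = ⌈2k/ε⌉ + 1`, `L₀ ≥ 2 N₀/ε + 1`,
`δ = 1/(N₀ 2^N₀)`.
`d(a)` = number of `w ∈ B` with `(a, w) ∈ T`.  The `a` with `d(a) ≥ (ε/2) #B` are at least `(ε/2) #A ≥ N₀` many; take `A₀`
of `N₀` such `a`.  `∑_{w ∈ B} #{a ∈ A₀ | (a,w) ∈ T} ≥ N₀ (ε/2) #B ≥ k #B`, so at least `#B/N₀` of the `w` have at least `k`
such `a` (else the sum would be `< (k - 1) #B + N₀ * #B/N₀`).  For every such `w` choose a subset of `k` elements of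
`A₀`; there are at most `2^N₀` subsets, so one `A'` is chosen by at least `#B/(N₀ 2^N₀)` of the `w`. -/
def DPP_stmt : Prop := ∀ (k : ℕ) (ε : ℝ), 0 < ε → ∃ (δ : ℝ) (L₀ : ℕ), 0 < δ ∧ ∀ (β : Type) (A : Finset ℤ) (B : Finset β)
  (T : Finset (ℤ × β)), T ⊆ A ×ˢ B → L₀ ≤ #A → ε * #A * #B ≤ #T →
  ∃ A' ⊆ A, #A' = k ∧ δ * #B ≤ #{w ∈ B | ∀ a ∈ A', (a, w) ∈ T}

/-- Row BOX (short to medium; `theorem BOX (h : DPP_stmt) : BOX_stmt`).  Apply DPP four times: `β = ℤ × ℤ × ℤ`,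
`B = Y ×ˢ X ×ˢ Y`; then to the set of the `w` found (as a subset of `Y ×ˢ (X ×ˢ Y)`), with `ε = δ₁`, and so on; the last
time `β = Unit`.  (All four sets have `L` elements.) -/
def BOX_stmt : Prop := ∀ (k : ℕ) (ε : ℝ), 0 < ε → ∃ L₀ : ℕ, ∀ (L : ℕ) (X Y : Finset ℤ) (T : Finset (ℤ × ℤ × ℤ × ℤ)),
  L₀ ≤ L → #X = L → #Y = L → T ⊆ X ×ˢ Y ×ˢ X ×ˢ Y → ε * (L : ℝ) ^ 4 ≤ #T →
  ∃ X₁ ⊆ X, ∃ Y₁ ⊆ Y, ∃ X₂ ⊆ X, ∃ Y₂ ⊆ Y, #X₁ = k ∧ #Y₁ = k ∧ #X₂ = k ∧ #Y₂ = k ∧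
    ∀ x ∈ X₁, ∀ y ∈ Y₁, ∀ x' ∈ X₂, ∀ y' ∈ Y₂, (x, y, x', y') ∈ T

open Classical in
/-- Row AVG (short to medium).  Every 4-tuple outside the set on the left has a good pair `(z, z')`, `z ∈ {x, y}`,
`z' ∈ {x', y'}`, and every pair `(z, z') ∈ (X ∪ Y)²` belongs to at most `L²` of the 4-tuples (`X`, `Y` disjoint: `z ∈ X` or
`z ∈ Y` fixes `x` or `y`, the other is free; the same for `z'`).  So `(1 - ε) L^4 ≤ L² #{good pairs}`. -/
def AVG_stmt : Prop := ∀ (L : ℕ) (X Y : Finset ℤ) (G : ℤ → ℤ → Prop) (ε : ℝ), #X = L → #Y = L → Disjoint X Y →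
  (#{t ∈ X ×ˢ Y ×ˢ X ×ˢ Y | ¬ G t.1 t.2.2.1 ∧ ¬ G t.1 t.2.2.2 ∧ ¬ G t.2.1 t.2.2.1 ∧ ¬ G t.2.1 t.2.2.2} : ℝ)
    ≤ ε * (L : ℝ) ^ 4 →
  (1 - ε) * (L : ℝ) ^ 2 ≤ #{p ∈ (X ∪ Y) ×ˢ (X ∪ Y) | G p.1 p.2}

/-- `c` is possible modulo `l`: `c ≡ a h - b h'` with `h`, `h + u₀`, `h'`, `h' + u₀` prime to `l`. -/
def Loc (a b : ℕ) (u₀ : ℤ) (l : ℕ) (c : ℤ) : Prop := ∃ h h' : ℤ, (l : ℤ) ∣ c - (a * h - b * h') ∧
  ¬ (l : ℤ) ∣ h ∧ ¬ (l : ℤ) ∣ h + u₀ ∧ ¬ (l : ℤ) ∣ h' ∧ ¬ (l : ℤ) ∣ h' + u₀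

/-- `c` is possible modulo all primes dividing `6 a b`. -/
def S0 (a b : ℕ) (u₀ c : ℤ) : Prop := ∀ l : ℕ, l.Prime → l ∣ 6 * a * b → Loc a b u₀ l c

/-- Row HEX (short to medium; `theorem HEX (h : SOL_stmt) : HEX_stmt`).  Chinese remainder theorem over the primes
`l ∣ 6 a b`: `g ≡ h_l`, `g' ≡ h'_l` mod `l` (from `Loc`); the product `P` of these primes divides `c - (a g - b g')`; SOL. -/
def HEX_stmt : Prop := ∀ (a b : ℕ) (u₀ c : ℤ), 0 < a → 0 < b → Nat.Coprime a b → S0 a b u₀ c →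
  ∃ h h' : ℤ, (a : ℤ) * h - b * h' = c ∧ ∀ l : ℕ, l.Prime → l ∣ 6 * a * b →
    ¬ (l : ℤ) ∣ h ∧ ¬ (l : ℤ) ∣ h + u₀ ∧ ¬ (l : ℤ) ∣ h' ∧ ¬ (l : ℤ) ∣ h' + u₀

/-- Row LCB (short to medium; `theorem LCB (h : LNV_stmt) : LCB_stmt`).  `W = 6 a b (4k)!`.  `p ∣ 6 a b`: `n = 0`, since `p ∣ W`.
`p ∤ 6 a b` (so `p ≥ 5`), `p ≤ 4k`: `p ∣ W`, LNV for the four forms `(b, h)`, `(b, h + u₀)`, `(a, h')`, `(a, h' + u₀)`.
`p > 4k`, `p ∤ 6 a b`: LNV for the at most `4k` forms `(b, h + z)`, `(a, h' + z)`. -/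
def LCB_stmt : Prop := ∀ (k a b : ℕ) (X₁ Y₁ X₂ Y₂ : Finset ℤ) (u₀ h h' : ℤ), 0 < a → 0 < b →
  #X₁ = k → #Y₁ = k → #X₂ = k → #Y₂ = k →
  (∀ x ∈ X₁ ∪ X₂, ((6 * a * b * (4 * k).factorial : ℕ) : ℤ) ∣ x) →
  (∀ y ∈ Y₁ ∪ Y₂, ((6 * a * b * (4 * k).factorial : ℕ) : ℤ) ∣ y - u₀) →
  (∀ l : ℕ, l.Prime → l ∣ 6 * a * b → ¬ (l : ℤ) ∣ h ∧ ¬ (l : ℤ) ∣ h + u₀ ∧ ¬ (l : ℤ) ∣ h' ∧ ¬ (l : ℤ) ∣ h' + u₀) →
  ∀ p : ℕ, p.Prime → ∃ n : ℕ, (∀ z ∈ X₁ ∪ Y₁, ¬ (p : ℤ) ∣ b * n + (h + z)) ∧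
    ∀ z ∈ X₂ ∪ Y₂, ¬ (p : ℤ) ∣ a * n + (h' + z)

open Classical in
/-- Row GPC (short to medium; `theorem GPC (hGP1 : GP1_stmt) (hLCB : LCB_stmt) (hHEX : HEX_stmt) (hBOX : BOX_stmt)
(hAVG : AVG_stmt) : GPC_stmt`).  HEX: `c₀ = a h - b h'`; `c₀ + a z - b z' = a (h + z) - b (h' + z')`.  `T` = the 4-tuples
without good pair, `G z z' = TrueCase a b (c₀ + a z - b z')`.  If `#T ≥ ε L^4`, BOX gives `X₁`, `Y₁`, `X₂`, `Y₂`, and
GP1 (admissible by LCB) gives `z ∈ X₁ ∪ Y₁`, `z' ∈ X₂ ∪ Y₂` with `G z z'`; a 4-tuple of the box which contains `z` and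
`z'` contradicts the definition of `T` (`k ≥ 1`: the other two entries are arbitrary).  Then AVG; `X`, `Y` are disjoint
because `y - x ≠ 0`. -/
def GPC_stmt : Prop := ∀ k : ℕ, 1 ≤ k → BlcK k → ∀ ε : ℝ, 0 < ε → ∃ L₀ : ℕ, ∀ (L a b : ℕ) (X Y : Finset ℤ) (u₀ : ℤ),
  L₀ ≤ L → 0 < a → 0 < b → Nat.Coprime a b → #X = L → #Y = L →
  (∀ x ∈ X, ((6 * a * b * (4 * k).factorial : ℕ) : ℤ) ∣ x) →
  (∀ y ∈ Y, ((6 * a * b * (4 * k).factorial : ℕ) : ℤ) ∣ y - u₀) →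
  (∀ x ∈ X, ∀ y ∈ Y, Bad (y - x)) → ∀ c₀ : ℤ, S0 a b u₀ c₀ →
  (∀ z ∈ X ∪ Y, ∀ z' ∈ X ∪ Y, c₀ + a * z - b * z' ≠ 0) →
  (1 - ε) * (L : ℝ) ^ 2 ≤ #{p ∈ (X ∪ Y) ×ˢ (X ∪ Y) | TrueCase a b (c₀ + a * p.1 - b * p.2)}

open Classical in
/-- Row SUM (medium).  `I = Ioc u (u + M)`.  The number of `c₀` with `c₀ + a z - b z' = 0` for some `z`, `z'` is at most
`4 L²`.  So `δ L² (#(S ∩ I) - 4 L²) ≤ ∑_{c₀ ∈ S ∩ I} #{(z, z') | G (c₀ + a z - b z')}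
= ∑_{(z, z')} #{c₀ ∈ S ∩ I | G (c₀ + a z - b z')}`.  For `z ∈ X` put `τ = 0`, for `z ∈ Y` `τ = 1`, the same for `z'`, `τ'`:
`a z - b z' ≡ τ a u₀ - τ' b u₀` mod `W`, so `c = c₀ + a z - b z'` has `G c` and `S (c - (τ a u₀ - τ' b u₀))`, and `c ∈ I` except
for at most `|a z - b z'|` values of `c₀`.  Each of the four `(τ, τ')` belongs to `L²` pairs.  Divide by `L²`.
`C = 4 L² + ∑_{(z,z')} |a z - b z'|` will do. -/
def SUM_stmt : Prop := ∀ (W a b L : ℕ) (X Y : Finset ℤ) (u₀ : ℤ) (S G : ℤ → Prop), 1 ≤ L → #X = L → #Y = L → Disjoint X Y →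
  (∀ c t : ℤ, S (c + W * t) ↔ S c) → (∀ x ∈ X, (W : ℤ) ∣ x) → (∀ y ∈ Y, (W : ℤ) ∣ y - u₀) →
  ∃ C : ℝ, ∀ δ : ℝ, 0 ≤ δ → δ ≤ 1 →
    (∀ c₀, S c₀ → (∀ z ∈ X ∪ Y, ∀ z' ∈ X ∪ Y, c₀ + a * z - b * z' ≠ 0) →
      δ * (L : ℝ) ^ 2 ≤ #{p ∈ (X ∪ Y) ×ˢ (X ∪ Y) | G (c₀ + a * p.1 - b * p.2)}) →
    ∀ (u : ℤ) (M : ℕ), δ * #{c ∈ Ioc u (u + M) | S c} - C ≤
      ∑ t ∈ (range 2) ×ˢ (range 2), (#{c ∈ Ioc u (u + M) | G c ∧ S (c - ((t.1 : ℤ) * (a * u₀) - t.2 * (b * u₀)))} : ℝ)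

open Classical in
/-- Row M3 (medium).  Everything is modulo 3; `a`, `b` are not both divisible by 3.  `3 ∣ u₀`: `Loc` says
`c ≡ ±a ± b` (all four signs), all 3 classes if `3 ∤ ab`, the 2 classes `≠ 0` if `3 ∣ ab`; `m = 4`.  `3 ∤ u₀`: `h ≡ h' ≡ u₀`, `Loc`
says `c ≡ (a - b) u₀`, one class; the four shifts of this class are `±(a - b) u₀`, `±(a + b) u₀`; among `±(a - b)`, `±(a + b)`
each class mod 3 occurs at most twice; `m = 2`. -/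
def M3_stmt : Prop := ∀ (a b : ℕ) (u₀ : ℤ), Nat.Coprime a b → ∃ m : ℕ, 2 ≤ m ∧ m ≤ 2 * #{r ∈ range 3 | Loc a b u₀ 3 (r : ℕ)} ∧
  ∀ c : ℤ, #{t ∈ (range 2) ×ˢ (range 2) | Loc a b u₀ 3 (c - ((t.1 : ℤ) * (a * u₀) - t.2 * (b * u₀)))} ≤ m

open Classical in
/-- Row CNT (medium; from CR: `theorem CNT (h : Pool.Agent.helper11.TX.CR_stmt) : CNT_stmt`, import
Pool.Agent.helper11.TX.Spec).  `P` = the prime factors of `6 a b`, `f l c = 1` if `Loc a b u₀ l c`, else `0`.  The sum over `r < l` is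
`≥ 1` for `l = 2` (`c ≡ a - b`, `u₀` even), the number of the statement for `l = 3`, and `≥ l - 2` for `l ≥ 5`, `l ∣ ab`: if `l ∣ b`
(so `l ∤ a`) every class of `c` except `0` and `-a u₀` is possible (`h` with `a h ≡ c`, `h'` any class except `0`, `-u₀`);
if `l ∣ a` every class except `0` and `b u₀`.  The lower bound of CR gives the claim with
`C = ∏ l` (the product of the sums is at most `∏ l`). -/
def CNT_stmt : Prop := ∀ (a b : ℕ) (u₀ : ℤ), 0 < a → 0 < b → Nat.Coprime a b → Even u₀ → ∃ C : ℝ, ∀ (u : ℤ) (M : ℕ),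
  (#{r ∈ range 3 | Loc a b u₀ 3 (r : ℕ)} : ℝ) / 6 * (∏ l ∈ (a * b).primeFactors with 5 ≤ l, (1 - 2 / (l : ℝ))) * M - C ≤
    #{c ∈ Ioc u (u + M) | S0 a b u₀ c}

/-- Row QUA (medium; `theorem QUA (hPIG : PIG_stmt) (hGPC : GPC_stmt) (hSUM : SUM_stmt) (hM3 : M3_stmt) (hCNT : CNT_stmt) :
QUA_stmt`).  Given `a`, `b`, `ε` (`ε < 1/12` without loss of generality: for `ε ≥ 1/12` the left side is `≤ 0`).  `L = max L₀ 1`
from GPC with this `ε` in place of `12 ε` or smaller, `W = 6 a b (4k)!`, PIG with `(L, W)`: `X`, `Y`, `u₀`.  `S0 a b u₀` is periodic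
mod `W` (every prime `l ∣ 6 a b` divides `W`).  SUM with `S = S0 a b u₀`, `G = TrueCase a b`, `δ = 1 - ε`:
`(1 - ε) #(S ∩ I) - C ≤ ∑_t #{c ∈ I | G c ∧ S (c - s_t)} = ∑_{c ∈ I, G c} #{t | S (c - s_t)} ≤ m #{c ∈ I | G c}` (M3; `S` implies
`Loc` at `3`).  CNT and `m ≤ 2 #{...}`: `#(S ∩ I) ≥ (m/12) Π M - C'`.  So `#(G ∩ I) ≥ (1 - ε) (1/12) Π M - C''
≥ (1/12 - ε) Π M` for `M ≥ M₀` (`Π > 0`, `ε - ε/12 > 0`). -/
def QUA_stmt : Prop := ∀ k : ℕ, 1 ≤ k → BlcK k → (∀ K : ℕ, 1 ≤ K → ¬ TwoClusters K) → Quarter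

/-- The theorem. -/
def ALT_stmt : Prop := (∃ K : ℕ, 1 ≤ K ∧ TwoClusters K ∧ Sparse K 1) ∨ (Gaps ∧ Quarter)

/-- Assembly (done here). -/
theorem ALT_of (hSPA : SPA_stmt) (hUNI : UNI_stmt) (hPIG : PIG_stmt) (hBLC : BLC_stmt) (hGP2 : GP2_stmt)
    (hQUA : QUA_stmt) : ALT_stmt := by
  obtain ⟨k, hk, hB⟩ := hBLC
  by_cases h : ∃ K : ℕ, 1 ≤ K ∧ TwoClusters K
  · obtain ⟨K, hK, hT⟩ := h
    obtain ⟨C, hC, hS⟩ := hSPA K hK
    exact Or.inl (hUNI K C hK hC hT (hS hT))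
  · right
    have h' : ∀ K : ℕ, 1 ≤ K → ¬ TwoClusters K := fun K hK hT => h ⟨K, hK, hT⟩
    refine ⟨?_, hQUA k hk hB h'⟩
    have hP : 1 ≤ (4 * k).factorial := Nat.factorial_pos _
    have hK : 1 ≤ k * (4 * k).factorial := Nat.one_le_iff_ne_zero.2 (Nat.mul_ne_zero (by omega) (by omega))
    have h2 : 2 ∣ (4 * k).factorial := Nat.dvd_factorial (by norm_num) (by omega)
    obtain ⟨X, Y, u₀, hX, hY, hu, hα, hβ, hbad⟩ := hPIG k (4 * k).factorial hk hP h2 (h' _ hK)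
    exact hGP2 k X Y u₀ hk hB hX hY hu hα hβ hbad

end Pool.Agent.AL
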