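import Pool.Agent.helper7.AL.SpecD

/-!
# Project AL (MP_bf63dc_nt), sixth part: the duality, relatively dense form

THEOREM E.  For every `θ > 0` at least one holds:
(A) as in Theorem D (for every `k` any `k` clusters of shifts: more than `θ k` simultaneous primes `n + h_i`);
(B) for all positive integers `μ_1, ..., μ_m` there is `C` such that EVERY cube of side `C` in `ℤ^m` contains an `h` for which MORE THAN
`m (1/4 + 1/500000)/θ` of the `m` numbers `μ_p n + h_p` are prime simultaneously for infinitely many `n`.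

RULES as in SpecL.lean; files `Pool/Agent/<seat>/AL/<ROW>.lean`, import Pool.Agent.helper7.AL.SpecE, namespace Pool.Agent.LD.
-/

set_option autoImplicit false

namespace Pool.Agent.LD

open Finset Pool.Agent.helper85.FC Pool.Agent.AT

/-- The relatively dense form of (B), slopes `s`. -/
def Cube (θ : ℝ) {k m : ℕ} (s : Fin k → ℕ) (μ : Fin m → ℕ) : Prop := ∃ C : ℕ, ∀ w : Fin m → ℤ,
  ∃ (h x : Fin m → ℤ) (I : Finset (Fin m)) (i : Fin m → Fin k), (∀ p, w p < h p ∧ h p ≤ w p + C ∧ |x p| ≤ C) ∧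
    (m : ℝ) * (1 / 4 + 1 / 500000) < θ * #I ∧
    ∀ N : ℕ, ∃ n ≥ N, ∀ p ∈ I, (ev (s (i p) * μ p, s (i p) * h p + x p) n).Prime

/-- Row LEI (short to medium).  Different copies can be kept apart.  Choose `h 0, h 1, ...` one after the other: `h p = h₀ + Q r` (all `r : ℤ`)
in the interval `(w p, w p + Q (R + 1)]`, `R = m k² K²`: there are at least `R + 1` such values, and for every `q < p`, `i`, `j`, `x ∈ H i`,
`y ∈ H j` at most one value of `h p` satisfies `s_j μ_q (s_i h_p + x) = s_i μ_p (s_j h_q + y)`.  With such `h` all `cop m s μ h x` are injective: in one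
copy by the injectivity of `fo s y`, in different copies because equal forms satisfy this equation. -/
def LEI_stmt : Prop := ∀ (k m K Q : ℕ) (s : Fin k → ℕ) (H : Fin k → Finset ℤ) (μ : Fin m → ℕ) (h₀ : ℤ), 0 < Q → (∀ i, 0 < s i) →
  (∀ p, 0 < μ p) → (∀ i, #(H i) = K) → (∀ y ∈ Fintype.piFinset H, Function.Injective (fo s y)) →
  ∀ w : Fin m → ℤ, ∃ h : Fin m → ℤ, (∀ p, w p < h p ∧ h p ≤ w p + Q * (m * k ^ 2 * K ^ 2 + 1) ∧ (Q : ℤ) ∣ h p - h₀) ∧
    ∀ x : Fin m → Fin k → ℤ, (∀ p, x p ∈ Fintype.piFinset H) → Function.Injective (cop m s μ h x)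

/-- THEOREM E, all slopes. -/
def LEE_stmt : Prop := ∀ k m : ℕ, 1 ≤ k → 1 ≤ m → ∃ K : ℕ, 1 ≤ K ∧ ∀ (θ : ℝ) (s : Fin k → ℕ), (∀ i, 0 < s i) →
  BoxT θ k s K ∨ ∀ μ : Fin m → ℕ, (∀ p, 0 < μ p) → Cube θ s μ

/-- Row LEE (medium, assembly; `theorem LEE (hBOX : ∀ k, 1 ≤ k → BOXk k) (hLPG : LPG_stmt) (hLHZ : LHZ_stmt) (hLJA : LJA_stmt)
(hLEI : LEI_stmt) (hLJD : LJD_stmt) : LEE_stmt`; the first half of row LDD).  `K₀ ≥ 1` from `BOXk (m * k)`, `W = (m k K₀)!`, `K = K₀ W`; `H` from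
LPG, `Q = W ∏ μ_p`, `h₀` from LHZ; `C = Q (m k² K₀² + 1) + ` a bound for `|x|`, `x ∈ H i`.  Given `w`: `h` from LEI, admissibility from LJA; the
box theorem for the sets `{(s_i μ_p, s_i h_p + x) : x ∈ H_i}` gives `x` with `Many (cop ..)`; LJD gives `I`, `i`; `x p := x p (i p)`. -/
def LEE_row : Prop := (∀ k, 1 ≤ k → BOXk k) → LPG_stmt → LHZ_stmt → LJA_stmt → LEI_stmt → LJD_stmt → LEE_stmt

/-- THEOREM E, slopes 1: the duality. -/
def DUE_stmt : Prop := ∀ θ : ℝ, (∀ k : ℕ, 1 ≤ k → ∃ K : ℕ, BoxT θ k (fun _ => 1) K) ∨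
  ∀ (m : ℕ) (μ : Fin m → ℕ), 1 ≤ m → (∀ p, 0 < μ p) → ∃ C : ℕ, ∀ w : Fin m → ℤ, ∃ (h : Fin m → ℤ) (I : Finset (Fin m)),
    (∀ p, w p < h p ∧ h p ≤ w p + C) ∧ (m : ℝ) * (1 / 4 + 1 / 500000) < θ * #I ∧
    ∀ N : ℕ, ∃ n ≥ N, ∀ p ∈ I, ((μ p : ℤ) * n + h p).toNat.Prime

/-- Row DUE (short to medium; `theorem DUE (h : LEE_stmt) : DUE_stmt`).  If the first part fails for `k` (so for all `K`), `K` from LEE for this `k`
and `m` gives `Cube θ (fun _ : Fin k => 1) μ` with a constant `C`; the new constant is `3 C + 1`: apply it to `w p + C` and put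
`h p := h p + x p` (`w p + C < h p ≤ w p + 2 C`, `|x p| ≤ C`). -/
def DUE_row : Prop := LEE_stmt → DUE_stmt

end Pool.Agent.LD
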