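import Pool.Agent.helper7.AL.SpecD

/-!
# Row LJH from LJD (MP_bf63dc_nt)
-/

set_option autoImplicit false

namespace Pool.Agent.LD

open Finset Pool.Agent.helper85.FC Pool.Agent.AT

theorem LJH_of_LJD (hD : LJD_stmt) : LJH_stmt := by
  intro k m s μ h x hμ hx hM
  obtain ⟨I, i, hI, hN⟩ := hD k m (th m) s μ h x hμ hx hM
  have h1 : 1 < #I := by
    by_contra hcon
    have h2 : (#I : ℝ) ≤ 1 := by
      have : #I ≤ 1 := by omega
      exact_mod_cast this
    have h3 : (0 : ℝ) ≤ th m := by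
      unfold th
      positivity
    have h4 : th m * #I ≤ th m * 1 := mul_le_mul_of_nonneg_left h2 h3
    unfold th at hI h4
    linarith
  obtain ⟨p, hp, q, hq, hpq⟩ := Finset.one_lt_card.1 h1
  refine ⟨p, q, hpq, i p, i q, fun N => ?_⟩
  obtain ⟨n, hn, hnI⟩ := hN N
  exact ⟨n, hn, hnI p hp, hnI q hq⟩

end Pool.Agent.LD
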