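import Pool.Agent.helper7.AL.AllD
import Pool.Agent.helper7.AL.LJH
import Pool.Agent.helper53.AL.LQG
import Pool.Agent.helper20.AL.LQP
import Pool.Agent.helper52.AL.LQH
import Pool.Agent.helper60.AL.LQA
import Pool.Agent.helper16.AL.MHS
import Pool.Agent.helper52.AL.MJA
import Pool.Agent.helper5.AL.SOL
import Pool.Agent.helper5.AL.OMG

/-!
# The ladder with a modulus (MP_bf63dc_nt): assembly of LADQ
-/

set_option autoImplicit false

namespace Pool.Agent.LD

open Pool.Agent.AT

theorem LJH_all : LJH_stmt := LJH_of_LJD LJD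

theorem LADQ_all : LADQ_stmt :=
  LQG BOX_all PRT LQP (LQH Pool.Agent.AL.MHS) LQA LJH_all Pool.Agent.AL.SOL (Pool.Agent.AL.MJA Pool.Agent.AL.OMG)

end Pool.Agent.LD
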