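import Pool.Agent.helper7.AL.SpecL

/-!
# Project AL (MP_bf63dc_nt), fifth part: THE DUALITY between shifts and coefficients

`e = 1/500000`.  THEOREM D.  For every `θ > 0` at least one holds:
(A) for every `k` there is `K` such that in every box `H_1 × ... × H_k` of admissible `k`-tuples of different integers, `#(H_i) ≥ K`, some
tuple `h` has MORE THAN `θ k` of the numbers `n + h_i` prime simultaneously for infinitely many `n` (hence all but a power saving of all
admissible `k`-tuples in arbitrary finite sets);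
(B) for every `m` any `m` positive integers contain MORE THAN `m (1/4 + e)/θ` all of whose pairs are ample, at common scales.
`θ = 1` gives (B) with `m/4` (the clique theorem), `θ = 1/4 + e` gives (A) (the box theorem), `θ = 1/2`: more than half of the shifts
or more than half of the coefficients, `θ = 3/4`: three quarters of the shifts or a third of the coefficients.  The same for
all slopes `s_i` in place of 1.

PROOF.  As LAD: `m` copies of a box in which at most `θ k` values are prime; more than `(1/4 + e) m k` of the forms are prime together, so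
more than `m (1/4 + e)/θ` copies are hit together.

RULES as in SpecL.lean; files `Pool/Agent/<seat>/AL/<ROW>.lean`, import Pool.Agent.helper7.AL.SpecD, namespace Pool.Agent.LD.
-/

set_option autoImplicit false

namespace Pool.Agent.LD

open Finset Pool.Agent.helper85.FC Pool.Agent.AT

/-- Row LJD (medium).  As LJH.  For large `n` every copy has at most `θ k` prime values (at `n' = μ_p n + h_p`), so with `I_n` = the set of the
copies with a prime value: `(1/4 + 1/500000) m k < #hits ≤ #I_n θ k`, and `k ≥ 1` (for `k = 0` there are no hits).  Choose `i_n(p)` for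
`p ∈ I_n` (any value for the other `p`); finitely many `(I, i)`, one of them occurs for infinitely many `n`. -/
def LJD_stmt : Prop := ∀ (k m : ℕ) (θ : ℝ) (s : Fin k → ℕ) (μ : Fin m → ℕ) (h : Fin m → ℤ) (x : Fin m → Fin k → ℤ),
  (∀ p, 0 < μ p) → (∀ p, ¬ ManyT θ (fo s (x p))) → Many (cop m s μ h x) →
  ∃ (I : Finset (Fin m)) (i : Fin m → Fin k), (m : ℝ) * (1 / 4 + 1 / 500000) < θ * #I ∧
    ∀ N : ℕ, ∃ n ≥ N, ∀ p ∈ I, (ev (s (i p) * μ p, s (i p) * h p + x p (i p)) n).Prime

open Classical in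
/-- Row LCD (short to medium; pure counting, as LCO with common scales).  `D ≥ |A e j| + |B e j| + 1` for all `e`, `j`.  For every `T ≥ 1` one
`e` serves at least `T/#ι` of the `t` with `t₀ ≤ t < t₀ + T`; one `e` occurs for infinitely many `T`.  For this `e` and every `j` with
`R e j` the values `A e j * t + B e j` are different, `P` holds, and they are in `[-X, X]`, `X = D (t₀ + T)`.
`δ = 1/(#ι D (t₀ + 1))`. -/
def LCD_stmt : Prop := ∀ (ι κ : Type) [Fintype ι] [Fintype κ] (A B : ι → κ → ℤ) (R : ι → κ → Prop) (P : ι → κ → ℤ → Prop) (t₀ : ℕ),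
  (∀ e j, R e j → A e j ≠ 0) → (∀ t : ℕ, t₀ ≤ t → ∃ e, ∀ j, R e j → P e j (A e j * t + B e j)) →
  ∃ e, ∃ δ : ℝ, 0 < δ ∧ ∀ X₀ : ℕ, ∃ X : ℕ, X₀ ≤ X ∧ ∀ j, R e j → δ * X ≤ (#{c ∈ Icc (-(X : ℤ)) X | P e j c} : ℝ)

open Classical in
/-- Among the positive integers `μ_1, ..., μ_m` there is a set `I` with more than `m (1/4 + e)/θ` elements such that for suitable `i_p`
all ratios `μ_q s(i_q) : μ_p s(i_p)`, `p ≠ q` in `I`, are ample at common scales. -/
def Cliq (θ : ℝ) {k m : ℕ} (s : Fin k → ℕ) (μ : Fin m → ℕ) : Prop := ∃ (I : Finset (Fin m)) (i : Fin m → Fin k) (δ : ℝ), 0 < δ ∧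
  (m : ℝ) * (1 / 4 + 1 / 500000) < θ * #I ∧ ∀ X₀ : ℕ, ∃ X : ℕ, X₀ ≤ X ∧ ∀ p ∈ I, ∀ q ∈ I, p ≠ q →
    δ * X ≤ (#{c ∈ Icc (-(X : ℤ)) X | TrueCase (μ q * s (i q) / Nat.gcd (μ p * s (i p)) (μ q * s (i q)))
      (μ p * s (i p) / Nat.gcd (μ p * s (i p)) (μ q * s (i q))) c} : ℝ)

/-- THEOREM D. -/
def LDD_stmt : Prop := ∀ k m : ℕ, 1 ≤ k → 1 ≤ m → ∃ K : ℕ, 1 ≤ K ∧ ∀ (θ : ℝ) (s : Fin k → ℕ), (∀ i, 0 < s i) →
  BoxT θ k s K ∨ ∀ μ : Fin m → ℕ, (∀ p, 0 < μ p) → Cliq θ s μ

/-- Row LDD (medium to long, assembly; `theorem LDD (hBOX : ∀ k, 1 ≤ k → BOXk k) (hPRT : PRT_stmt) (hLPG : LPG_stmt) (hLHZ : LHZ_stmt)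
(hLJA : LJA_stmt) (hLJI : LJI_stmt) (hLJD : LJD_stmt) (hLCD : LCD_stmt) : LDD_stmt`; as row LAD, with LJD in place of LJH and LCD in place
of LCO).  `K₀ ≥ 1` from `BOXk (m * k)`, `W = (m k K₀)!`, `K = K₀ W`; `H` from LPG, `Q = W ∏ μ_p`, `h₀` from LHZ, `v p = V^(p+1)`, `V > max μ`,
`t₀` from LJI, `h p = h₀ + Q v_p t`.  For `t ≥ t₀` the box theorem gives `x` (all `x p ∈ ∏ H`) with `Many (cop ..)`; LJD gives `I`, `i`.  For
`p ≠ q` in `I` the two forms `f = (s_i μ_p, s_i h_p + x)`, `g = (s_j μ_q, s_j h_q + x')` are different, admissible together and prime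
together infinitely often, PRT: `Pair f g`, which is the true case with the value `A t + B`, `A ≠ 0` as in LAD.  LCD with `ι` = the
tuples `(I, i, x)` (`x p ∈ ∏ H`: a finite type) and `κ = Fin m × Fin m`, `R (I, i, x) (p, q) = (p ∈ I ∧ q ∈ I ∧ p ≠ q)` (and the inequality for
`#I`: restrict `ι` to the `I` which satisfy it). -/
def LDD_row : Prop := (∀ k, 1 ≤ k → BOXk k) → PRT_stmt → LPG_stmt → LHZ_stmt → LJA_stmt → LJI_stmt → LJD_stmt → LCD_stmt → LDD_stmt

/-- Theorem D for the slopes 1, all `k` and `m`. -/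
def DUA_stmt : Prop := ∀ θ : ℝ, (∀ k : ℕ, 1 ≤ k → ∃ K : ℕ, BoxT θ k (fun _ => 1) K) ∨
  ∀ (m : ℕ) (μ : Fin m → ℕ), 1 ≤ m → (∀ p, 0 < μ p) → Cliq θ (fun _ : Fin 1 => 1) μ

/-- Row DUA (short; `theorem DUA (h : LDD_stmt) : DUA_stmt`).  If the first part fails for some `k` (so for all `K`), `K` from LDD for this `k` and
`m` gives `Cliq θ (fun _ : Fin k => 1) μ`; the slopes are all 1, so `i` may be replaced by the constant map to `Fin 1`. -/
def DUA_row : Prop := LDD_stmt → DUA_stmt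

/-- Row LZO (medium; from the zero-one law).  Let `H` be a subgroup of the positive rationals of index `ω` (2 or 3) containing all ample ratios.
Then for every `k` there is `K`, the same for all slopes `s_1, ..., s_k` whose quotients are in `H`, such that the box property holds with
more than `ω (1/4 + 1/500000) k`.  Proof: `ω` representatives of the cosets, multiplied by a common denominator: positive integers
`μ_1, ..., μ_ω` in different cosets.  `K` from LDD for `k`, `m = ω`, `θ = th ω`.  If `Cliq (th ω) s μ` held, `#I > 1`, there would be `p ≠ q`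
in `I` with the ratio `μ_q s_j : μ_p s_i` ample (`δ * X ≤ #{...}`, for arbitrarily large `X`), so `μ_q s_j/(μ_p s_i) ∈ H`, and
`s_j/s_i ∈ H` gives `μ_q/μ_p ∈ H`, a contradiction.  (`hA` is stated with the numerator and the denominator in lowest terms: for positive
integers `a`, `b`: `a / gcd b a` and `b / gcd b a`.) -/
def LZO_stmt : Prop := LDD_stmt → ∀ (H : Subgroup ℚˣ) (ω : ℕ), H ≤ Units.posSubgroup ℚ → (ω = 2 ∨ ω = 3) →
  H.relIndex (Units.posSubgroup ℚ) = ω →
  (∀ (x : ℚˣ) (a b : ℕ), 0 < a → 0 < b → (x : ℚ) = a / b → (∃ δ : ℝ, 0 < δ ∧ ∀ X₀ : ℕ, ∃ X : ℕ, X₀ ≤ X ∧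
    δ * X ≤ ({c : ℤ | c ∈ Icc (-(X : ℤ)) X ∧ TrueCase (a / Nat.gcd b a) (b / Nat.gcd b a) c}.ncard : ℝ)) → x ∈ H) →
  ∀ k : ℕ, 1 ≤ k → ∃ K : ℕ, 1 ≤ K ∧ ∀ s : Fin k → ℕ, (∀ i, 0 < s i) →
    (∀ i j, ∃ x ∈ H, (x : ℚ) = (s i : ℚ) / s j) → BoxT (th ω) k s K

end Pool.Agent.LD
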