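import Pool.Agent.helper7.AL.SpecM
import Pool.Agent.helper38.AT.Spec

/-!
# Project AL (MP_bf63dc_nt), hand-in 1, fourth part: THE LADDER

`th m = m (1/4 + 1/500000)`.  THEOREM L.  For all `k, m ≥ 1` there is `K` such that for ALL slopes `s_1, ..., s_k ≥ 1` at least one holds:
(A) for all sets `H_1, ..., H_k` of at least `K` integers such that all tuples of forms `s_i n + h_i`, `h ∈ ∏ H_i`, are admissible with
different entries, for some tuple more than `th m * k` of the `k` forms are prime simultaneously for infinitely many `n`;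
(B) for all positive integers `μ_1, ..., μ_m` some ratio `μ_q s_j : μ_p s_i`, `p ≠ q`, is ample (a positive upper proportion of the `c` gives
true cases).
(`m = 2`: more than half; `m = 3`: more than three quarters, so for `k = 4` ALL FOUR forms; `m = 1` is the box theorem, `m = 4` the theorem on
four coefficients.)
THEOREM LQ.  For every `q ≥ 1`: EITHER for every `k` there is `K` such that (A) with `m = 2` and slopes 1 holds for all sets in one class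
mod `q`, OR `GapsM q`: for ALL `(a, b, c')` satisfying the conditions of Q1 every interval of length `C (a + b)` contains a true `c ≡ c'` mod `q`.

PROOF.  If (A) fails, take `m` copies `n ↦ μ_p n + h_p` of the bad box: `m k` clusters.  By the box theorem of project AT (for `m k`) more
than `(1/4 + 1/500000) m k = th m * k` of the forms of some tuple are prime together; every copy has at most `th m * k` of them, so two
DIFFERENT copies are hit.  Moving the `h_p` in arithmetic progressions gives a positive proportion of the `c`.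

RULES as in Spec.lean; files `Pool/Agent/<seat>/AL/<ROW>.lean`, import Pool.Agent.helper7.AL.SpecL, namespace Pool.Agent.LD (new
namespace).  `ev`, `Adm`, `hits`, `Many`, `BOXk`, `Pair`, `PRT_stmt`, `COI_stmt` are from Pool.Agent.AT (helper38/AT/Spec.lean).
-/

set_option autoImplicit false

namespace Pool.Agent.LD

open Finset Pool.Agent.helper85.FC Pool.Agent.AT

/-- The threshold. -/
noncomputable def th (m : ℕ) : ℝ := m * (1 / 4 + 1 / 500000)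

/-- For infinitely many `n` more than `θ k` of the `k` forms have prime values. -/
def ManyT (θ : ℝ) {k : ℕ} (f : Fin k → ℕ × ℤ) : Prop := ∀ N : ℕ, ∃ n ≥ N, θ * k < hits f n

/-- The forms `s_i n + h_i`. -/
def fo {k : ℕ} (s : Fin k → ℕ) (h : Fin k → ℤ) : Fin k → ℕ × ℤ := fun i => (s i, h i)

/-- The box property with the threshold `θ` for the slopes `s`. -/
def BoxT (θ : ℝ) (k : ℕ) (s : Fin k → ℕ) (K : ℕ) : Prop := ∀ H : Fin k → Finset ℤ, (∀ i, K ≤ #(H i)) →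
  (∀ h ∈ Fintype.piFinset H, Adm (fo s h) ∧ Function.Injective (fo s h)) → ∃ h ∈ Fintype.piFinset H, ManyT θ (fo s h)

/-- The ratio `a : b` is ample. -/
def Amp (a b : ℕ) : Prop := ∃ δ : ℝ, 0 < δ ∧ Lowest (Ample δ) a b

/-- The forms of the copies `n ↦ μ_p n + h_p`. -/
def cop {k : ℕ} (m : ℕ) (s : Fin k → ℕ) (μ : Fin m → ℕ) (h : Fin m → ℤ) (x : Fin m → Fin k → ℤ) : Fin (m * k) → ℕ × ℤ :=
  fun t => (s (finProdFinEquiv.symm t).2 * μ (finProdFinEquiv.symm t).1,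
    s (finProdFinEquiv.symm t).2 * h (finProdFinEquiv.symm t).1 + x (finProdFinEquiv.symm t).1 (finProdFinEquiv.symm t).2)

/-! ## Theorem L -/

/-- Row LPG (short).  A bad box with `K W` elements in each `H i`; pigeonhole modulo `W` in each `H i`, subsets of exactly `K` elements. -/
def LPG_stmt : Prop := ∀ (θ : ℝ) (k K W : ℕ) (s : Fin k → ℕ), 1 ≤ W → ¬ BoxT θ k s (K * W) →
  ∃ H : Fin k → Finset ℤ, (∀ i, #(H i) = K) ∧ (∀ i, ∀ x ∈ H i, ∀ y ∈ H i, (W : ℤ) ∣ x - y) ∧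
    ∀ h ∈ Fintype.piFinset H, Adm (fo s h) ∧ Function.Injective (fo s h) ∧ ¬ ManyT θ (fo s h)

/-- Row LHZ (short to medium).  Chinese remainder theorem over the primes `p ∣ Q`.  `p ≤ k K`: all elements of `H i` are congruent mod `p`; take
a tuple (`K ≥ 1`) and the `n` of its admissibility at `p`, `h ≡ n`.  `p > k K`: every `x ∈ H i` with `p ∤ s i` excludes one class, if
`p ∣ s i` then `p ∤ x` (admissibility at `p` of a tuple through `x`) and nothing is excluded: at most `k K < p` classes. -/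
def LHZ_stmt : Prop := ∀ (k K Q : ℕ) (s : Fin k → ℕ) (H : Fin k → Finset ℤ), 1 ≤ K → 0 < Q → (∀ i, #(H i) = K) →
  (∀ p : ℕ, p.Prime → p ≤ k * K → ∀ i, ∀ x ∈ H i, ∀ y ∈ H i, (p : ℤ) ∣ x - y) →
  (∀ h ∈ Fintype.piFinset H, Adm (fo s h)) →
  ∃ h₀ : ℤ, ∀ p : ℕ, p.Prime → p ∣ Q → ∀ i, ∀ x ∈ H i, ¬ (p : ℤ) ∣ s i * h₀ + x

/-- Row LJA (short to medium).  `p ∣ Q`: `n = 0`, `s i * h p' + x ≡ s i * h₀ + x`.  `p ∤ Q`: then `p > m k` and `p` divides no `μ`.  For each of the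
`m k` forms: if `p ∤ s i` one class of `n` is excluded, if `p ∣ s i` then `p ∤ x` (admissibility of the tuple `x p'`) and none is: at most
`m k < p` classes. -/
def LJA_stmt : Prop := ∀ (k m Q : ℕ) (s : Fin k → ℕ) (H : Fin k → Finset ℤ) (μ : Fin m → ℕ) (h : Fin m → ℤ) (h₀ : ℤ),
  (∀ p : ℕ, p.Prime → p ≤ m * k → p ∣ Q) → (∀ p', μ p' ∣ Q) → (∀ p', (Q : ℤ) ∣ h p' - h₀) →
  (∀ p : ℕ, p.Prime → p ∣ Q → ∀ i, ∀ x ∈ H i, ¬ (p : ℤ) ∣ s i * h₀ + x) →
  (∀ y ∈ Fintype.piFinset H, Adm (fo s y)) →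
  ∀ x : Fin m → Fin k → ℤ, (∀ p', x p' ∈ Fintype.piFinset H) → Adm (cop m s μ h x)

/-- Row LJI (short to medium).  `h p = h₀ + Q v p t`.  In one copy: `s i μ = s j μ` and `s i h + x i = s j h + x j` give `(s i, x i) = (s j, x j)`.  In
different copies `p ≠ q`: equality gives `s_j μ_q (s_i h_p + x) - s_i μ_p (s_j h_q + x') = 0`, a linear equation for `t` with the leading
coefficient `s_i s_j Q (μ_q v_p - μ_p v_q) ≠ 0`; there are finitely many of them (`x`, `x'` run through finite sets), so `t ≥ t₀` avoids all. -/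
def LJI_stmt : Prop := ∀ (k m Q : ℕ) (s : Fin k → ℕ) (H : Fin k → Finset ℤ) (μ v : Fin m → ℕ) (h₀ : ℤ), 0 < Q → (∀ i, 0 < s i) →
  (∀ p, 0 < μ p) → (∀ p q, p ≠ q → μ q * v p ≠ μ p * v q) → (∀ y ∈ Fintype.piFinset H, Function.Injective (fo s y)) →
  ∃ t₀ : ℕ, ∀ t : ℕ, t₀ ≤ t → ∀ x : Fin m → Fin k → ℤ, (∀ p, x p ∈ Fintype.piFinset H) →
    Function.Injective (cop m s μ (fun p => h₀ + Q * (v p * t)) x)

/-- Row LJH (medium).  For every `p` there is `N_p` such that for `n' ≥ N_p` at most `th m * k` of the forms `fo s (x p)` are prime at `n'`.  For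
large `n` put `n' = μ_p n + h_p` (a natural number `≥ N_p`): `s_i μ_p n + s_i h_p + x = s_i n' + x`.  If more than
`(1/4 + 1/500000) (m k) = th m * k` of the `m k` forms are prime at `n`, two different copies contain a prime value.  There are finitely
many `(p, q, i, j)`, so one of them occurs for infinitely many `n`. -/
def LJH_stmt : Prop := ∀ (k m : ℕ) (s : Fin k → ℕ) (μ : Fin m → ℕ) (h : Fin m → ℤ) (x : Fin m → Fin k → ℤ), (∀ p, 0 < μ p) →
  (∀ p, ¬ ManyT (th m) (fo s (x p))) → Many (cop m s μ h x) →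
  ∃ p q, p ≠ q ∧ ∃ i j, ∀ N : ℕ, ∃ n ≥ N, (ev (s i * μ p, s i * h p + x p i) n).Prime ∧ (ev (s j * μ q, s j * h q + x q j) n).Prime

/-- Row LCO (short to medium; pure counting).  `ι` is not empty (`t = t₀`).  `D ≥ |A e| + |B e| + 1` for all `e`.  For every `T ≥ 1` the `t` with
`t₀ ≤ t < t₀ + T` give an `e` which serves at least `T/#ι` of them; the values `A e t + B e` are different, of absolute value
`≤ D (t₀ + T)`.  One `e` occurs for infinitely many `T`.  `X = D (t₀ + T)`, `δ = 1/(#ι D (t₀ + 1))` (`t₀ + T ≤ (t₀ + 1) T`). -/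
def LCO_stmt : Prop := ∀ (ι : Type) [Fintype ι] (A B : ι → ℤ) (P : ι → ℤ → Prop) (t₀ : ℕ), (∀ e, A e ≠ 0) →
  (∀ t : ℕ, t₀ ≤ t → ∃ e, P e (A e * t + B e)) →
  ∃ e, ∃ δ : ℝ, 0 < δ ∧ ∀ X₀ : ℝ, ∃ X : ℝ, X₀ ≤ X ∧ δ * X ≤ ({c : ℤ | |(c : ℝ)| ≤ X ∧ P e c}.ncard : ℝ)

/-- THEOREM L. -/
def LAD_stmt : Prop := ∀ k m : ℕ, 1 ≤ k → 1 ≤ m → ∃ K : ℕ, 1 ≤ K ∧ ∀ s : Fin k → ℕ, (∀ i, 0 < s i) →
  BoxT (th m) k s K ∨ ∀ μ : Fin m → ℕ, (∀ p, 0 < μ p) → ∃ p q, p ≠ q ∧ ∃ i j, Amp (μ q * s j) (μ p * s i)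

/-- Row LAD (medium to long, assembly; `theorem LAD (hBOX : ∀ k, 1 ≤ k → BOXk k) (hPRT : PRT_stmt) (hLPG : LPG_stmt) (hLHZ : LHZ_stmt)
(hLJA : LJA_stmt) (hLJI : LJI_stmt) (hLJH : LJH_stmt) (hLCO : LCO_stmt) : LAD_stmt`).  `K₀ ≥ 1` from `BOXk (m * k)` (a larger `K₀` is
fine), `W = (m k K₀)!` (divisible by all primes `≤ k K₀` and `≤ m k`), `K = K₀ W`.  Let (A) fail: LPG gives `H`.  Given `μ`: `Q = W ∏ μ_p`,
`h₀` from LHZ, `v p = V^(p+1)` with `V > max μ` (`μ_q v_p = μ_p v_q`, `p < q`, would give `μ_q = μ_p V^(q-p) ≥ V`), `t₀` from LJI.  For `t ≥ t₀`,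
`h p = h₀ + Q v_p t`: the sets `H'_(p,i) = {(s_i μ_p, s_i h_p + x) : x ∈ H_i}` (`K₀` elements), all tuples admissible (LJA) and with
different entries (LJI); `BOXk (m k)` gives `x` with `Many (cop ..)`; LJH gives `p ≠ q`, `i`, `j`; the two forms are different and admissible
together (parts of the tuple), PRT gives `Pair f g`, `f = (s_i μ_p, ..)`, `g = (s_j μ_q, ..)`, that is a true case for the ratio
`μ_q s_j : μ_p s_i` in lowest terms with `c = (s_j μ_q/G) (s_i h_p + x) - (s_i μ_p/G) (s_j h_q + x')`, `G = gcd`, which is `A t + B` with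
`A = (s_i s_j Q/G) (μ_q v_p - μ_p v_q) ≠ 0`.  LCO with `ι` = the tuples `(p, q, i, j, x, x')`, `p ≠ q`, `x ∈ H_i`, `x' ∈ H_j`. -/
def LAD_row : Prop := (∀ k, 1 ≤ k → BOXk k) → PRT_stmt → LPG_stmt → LHZ_stmt → LJA_stmt → LJI_stmt → LJH_stmt → LCO_stmt → LAD_stmt

open Classical in
/-- Row LQT (short to medium; `theorem LQT (hKSB : Pool.Agent.AT.KSB_stmt) (hCOI : COI_stmt) : LQT_stmt`; as QM, Pool/Agent/helper22/AT/QM.lean).
`C'`, `δ` from KSB for `K`, `k`; `C = C' + k²`.  Tuples which are not injective: COI for the sets `{s_i} × F_i` (the same number of elements).  If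
there are more than `C' ∏ L^(-δ)` injective admissible tuples without `ManyT`, KSB gives a box of them, contradiction to `BoxT`. -/
def LQT_stmt : Prop := ∀ (k K : ℕ), 1 ≤ k → 1 ≤ K → ∃ C δ : ℝ, 0 < C ∧ 0 < δ ∧ δ ≤ 1 ∧ ∀ (θ : ℝ) (s : Fin k → ℕ), BoxT θ k s K →
  ∀ (F : Fin k → Finset ℤ) (L : ℕ), 1 ≤ L → (∀ i, L ≤ #(F i)) →
  (#{h ∈ Fintype.piFinset F | Adm (fo s h) ∧ ¬ ManyT θ (fo s h)} : ℝ) ≤ C * (∏ i, (#(F i) : ℝ)) * (L : ℝ) ^ (-δ)

/-! ## Theorem LQ: slopes 1, uniform, every modulus -/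

/-- The box property for the slopes 1 and sets in one class modulo `q`. -/
def BoxQ (θ : ℝ) (q k K : ℕ) : Prop := ∀ H : Fin k → Finset ℤ, (∀ i, K ≤ #(H i)) →
  (∀ i j, ∀ x ∈ H i, ∀ y ∈ H j, (q : ℤ) ∣ x - y) →
  (∀ h ∈ Fintype.piFinset H, Adm (fo (fun _ => 1) h) ∧ Function.Injective h) → ∃ h ∈ Fintype.piFinset H, ManyT θ (fo (fun _ => 1) h)

/-- Row LQP (short to medium).  As LPG (pigeonhole mod `W`), then translate all `H i` by `- z₀`, `z₀ ∈ H 0` (`k ≥ 1`, `K ≥ 1`): `Adm`, injectivity and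
`ManyT` do not change (`n + (x - z₀)` at `n` is `n' + x` at `n' = n - z₀`). -/
def LQP_stmt : Prop := ∀ (θ : ℝ) (q k K W : ℕ), 1 ≤ k → 1 ≤ K → 1 ≤ W → ¬ BoxQ θ q k (K * W) →
  ∃ H : Fin k → Finset ℤ, (∀ i, #(H i) = K) ∧ (∀ i, ∀ x ∈ H i, ∀ y ∈ H i, (W : ℤ) ∣ x - y) ∧ (∀ i, ∀ x ∈ H i, (q : ℤ) ∣ x) ∧
    ∀ h ∈ Fintype.piFinset H, Adm (fo (fun _ => 1) h) ∧ Function.Injective h ∧ ¬ ManyT θ (fo (fun _ => 1) h)

/-- Row LQH (short to medium; `theorem LQH (h : Pool.Agent.AL.MHS_stmt) : LQH_stmt`).  MHS with `m = q`, `P = 1`, `u₀ = 0` gives `g₁`, `g₁'`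
prime to `q` with `q ∣ (a g₁ - b g₁') - c'`.  Chinese remainder theorem: `g ≡ g₁`, `g' ≡ g₁'` mod `q`, and for every prime `l ≤ w`, `l ∤ q`,
`g ≡ g' ≡ n_l` mod `l`, where `n_l` is the `n` of the admissibility at `l` of one tuple (all elements of `H i` are congruent mod `l`).  For
`l ∣ q` all `x` are `≡ 0` mod `l`. -/
def LQH_stmt : Prop := ∀ (q k w a b : ℕ) (c' : ℤ) (H : Fin k → Finset ℤ), 1 ≤ q → Pool.Agent.AL.Poss a b c' → (∀ i, (H i).Nonempty) →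
  (∀ i, ∀ x ∈ H i, ∀ y ∈ H i, ((w.factorial : ℕ) : ℤ) ∣ x - y) → (∀ i, ∀ x ∈ H i, (q : ℤ) ∣ x) →
  (∀ h ∈ Fintype.piFinset H, Adm (fo (fun _ => 1) h)) →
  ∃ g g' : ℤ, (q : ℤ) ∣ (a * g - b * g') - c' ∧ ∀ l : ℕ, l.Prime → l ∣ q * w.factorial →
    ∀ i, ∀ x ∈ H i, ¬ (l : ℤ) ∣ g + x ∧ ¬ (l : ℤ) ∣ g' + x

/-- Row LQA (short to medium; uses `LNV` if wanted).  `l ∣ q w!`: `n = 0`.  Otherwise `l > w ≥ 2 k`, `l ∤ q`: each of the `2 k` forms excludes at most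
one class of `n` mod `l` (if `l ∣ b` the forms `b n + h + x` are `≡ h + x ≢ 0`, the same for `a`), `2 k < l`. -/
def LQA_stmt : Prop := ∀ (q k w a b : ℕ) (h h' : ℤ) (H : Fin k → Finset ℤ), 2 * k ≤ w →
  (∀ l : ℕ, l.Prime → l ∣ q * w.factorial → ∀ i, ∀ x ∈ H i, ¬ (l : ℤ) ∣ h + x ∧ ¬ (l : ℤ) ∣ h' + x) →
  (∀ l : ℕ, l.Prime → w < l → ¬ l ∣ q → l ∣ b → ∀ i, ∀ x ∈ H i, ¬ (l : ℤ) ∣ h + x) →
  (∀ l : ℕ, l.Prime → w < l → ¬ l ∣ q → l ∣ a → ∀ i, ∀ x ∈ H i, ¬ (l : ℤ) ∣ h' + x) →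
  ∀ x : Fin 2 → Fin k → ℤ, (∀ p, x p ∈ Fintype.piFinset H) → Adm (cop 2 (fun _ => 1) ![b, a] ![h, h'] x)

/-- THEOREM LQ. -/
def LADQ_stmt : Prop := ∀ q : ℕ, 1 ≤ q → (∀ k : ℕ, 1 ≤ k → ∃ K : ℕ, BoxQ (th 2) q k K) ∨ Pool.Agent.AL.GapsM q

/-- Row LQG (medium to long, assembly; `theorem LQG (hBOX : ∀ k, 1 ≤ k → BOXk k) (hPRT : PRT_stmt) (hLQP : LQP_stmt) (hLQH : LQH_stmt)
(hLQA : LQA_stmt) (hLJH : LJH_stmt) (hSOL : Pool.Agent.AL.SOL_stmt) (hMJA : Pool.Agent.AL.MJA_stmt) : LADQ_stmt`; compare MGP / GP2,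
Pool/Agent/helper96/AL/GP2.lean).  Let the first part fail for `k`.  `K₀ ≥ 1` from `BOXk (2 * k)`, `κ = k K₀`, `w = 2 κ`, `W = w!`; LQP gives
`H`; `Z` = the union of the `H i` (at most `κ` elements), `D ≥ |z| + 1` for `z ∈ Z`.  Given `a, b, c'`, `u`: `g`, `g'` from LQH; MJA with `κ`, `q`,
`m := a b`, the residue `a g - b g'` and the classes `-a z` (`l ∣ b`), `b z` (`l ∣ a`, `l ∤ b`), `z ∈ Z`, gives `c₀` in every interval of length
`C (a + b)`, `c₀ ≡ a g - b g'` mod `q (2κ)!`; SOL: `c₀ = a h - b h'`, `h ≡ g`, `h' ≡ g'` mod `q (2κ)!`.  LQA: all tuples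
`cop 2 1 ![b, a] ![h, h'] x` are admissible; they are injective: in one copy since `x p` is injective, in different copies an equality
means `a = b` and `h + z = h' + z'`, so `c₀ + a z - b z' = 0`, impossible for `|c₀| > D (a + b)` (two possible starts of the interval as in
GP2).  `BOXk (2 k)` for the sets `{(b, h + x)}`, `{(a, h' + x)}`, then LJH (`th 2`) and PRT: `Pair (b, h + z) (a, h' + z')`, `gcd(a, b) = 1`, is
`TrueCase a b (a (h + z) - b (h' + z'))` (if LJH gives `p = 1`, `q = 0`, exchange the two), `c = c₀ + a z - b z' ≡ c₀ ≡ c'` mod `q`. -/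
def LQG_row : Prop := (∀ k, 1 ≤ k → BOXk k) → PRT_stmt → LQP_stmt → LQH_stmt → LQA_stmt → LJH_stmt → Pool.Agent.AL.SOL_stmt →
  Pool.Agent.AL.MJA_stmt → LADQ_stmt

/-- Row LTR (short).  Three coefficients which are pairwise not ample: LAD with `m = 3`, slopes 1, `μ = (a₁, a₂, a₃)`; (B) is impossible
(`Amp` is symmetric is not needed: all ordered pairs are in the hypothesis).  More generally for slopes `s` and `m` coefficients. -/
def LTR_stmt : Prop := ∀ k m : ℕ, 1 ≤ k → 1 ≤ m → ∃ K : ℕ, 1 ≤ K ∧ ∀ (s : Fin k → ℕ) (μ : Fin m → ℕ), (∀ i, 0 < s i) → (∀ p, 0 < μ p) →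
  (∀ p q, p ≠ q → ∀ i j, ¬ Amp (μ q * s j) (μ p * s i)) → BoxT (th m) k s K

end Pool.Agent.LD
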