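import Pool.Agent.helper7.AL.SpecG
import Pool.Agent.helper11.TX.Spec

/-!
# Project AL (MP_bf63dc_nt), hand-in 1, third part: the alternative for every modulus

THEOREM.  For every `m ≥ 1` at least one of (A), (B) holds.
(A) There is `K ≥ 1` such that for all finite sets `X`, `Y` of `K` integers each with `x ≠ y`, `2 m ∣ y - x` for all `x ∈ X`,
`y ∈ Y`, some `y - x` is a difference of infinitely many pairs of primes, and every interval of `N` integers contains at most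
`N^(1-1/K)` multiples `c ≠ 0` of `2 m` which are not.
(B) (α) There is `C` such that for ALL `a, b, c'` which satisfy the conditions of Q1 every interval of length `C (a + b)` contains
a `c ≡ c'` modulo `m` for which `(a, b, c)` is a true case.  (β) The density of these `c` in every long interval is at least
`(e(m) - ε) ∏_{l ∣ ab, l ≥ 5, l ∤ m} (1 - 2/l)`, `e(m) = (1/m) (1/2, or 1 if 2 ∣ m) (1/6, or 1/4 if 3 ∣ m)`.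

`m = 1` is `ALT_stmt`.  PROOF as in Spec.lean.  If two clusters fail, all `y - x` are `≡ 0` mod `2 m`, so all elements of `X ∪ Y` are in
one class mod `2 m`: after a translation `X ⊂ m P ℤ`, `Y ⊂ u₀ + m P ℤ`, `2 m ∣ u₀`.  So `c₀ + a z - b z' ≡ c₀` mod `m`.  At the primes
`l ∣ m` only `h`, `h'` prime to `l` is needed, and this is compatible with `a h - b h' ≡ c'` mod `m` by the conditions of Q1.

RULES as in Spec.lean; files `Pool/Agent/<seat>/AL/<ROW>.lean`, import Pool.Agent.helper7.AL.SpecM, namespace Pool.Agent.AL.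
-/

set_option autoImplicit false

namespace Pool.Agent.AL

open Finset Pool.Agent.helper85.FC Pool.Agent.helper11.MK

/-- Multiples `c ≠ 0` of `2 m` which are not the difference of infinitely many pairs of primes. -/
def BadM (m : ℕ) (c : ℤ) : Prop := c ≠ 0 ∧ ((2 * m : ℕ) : ℤ) ∣ c ∧ ¬ TrueCase 1 1 c

/-- Two clusters of `K` integers, differences divisible by `2 m`. -/
def TCM (m K : ℕ) : Prop := ∀ X Y : Finset ℤ, #X = K → #Y = K →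
  (∀ x ∈ X, ∀ y ∈ Y, x ≠ y ∧ ((2 * m : ℕ) : ℤ) ∣ y - x) → ∃ x ∈ X, ∃ y ∈ Y, TrueCase 1 1 (y - x)

open Classical in
/-- Power saving. -/
def SparseM (m K : ℕ) (C : ℝ) : Prop := ∀ (u : ℤ) (N : ℕ),
  (#{c ∈ Ioc u (u + N) | BadM m c} : ℝ) ≤ C * (N : ℝ) ^ (1 - 1 / (K : ℝ))

/-- (B) (α). -/
def GapsM (m : ℕ) : Prop := ∃ C : ℕ, ∀ (a b : ℕ) (c' : ℤ), Poss a b c' → ∀ u : ℤ,
  ∃ c ∈ Ioc u (u + C * (a + b)), (m : ℤ) ∣ c - c' ∧ TrueCase a b c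

/-- The constant of (β). -/
noncomputable def em (m : ℕ) : ℝ := 1 / m * (if 2 ∣ m then 1 else 1 / 2) * (if 3 ∣ m then 1 / 4 else 1 / 6)

open Classical in
/-- (B) (β). -/
def QuarterM (m : ℕ) : Prop := ∀ (a b : ℕ) (c' : ℤ), Poss a b c' → ∀ ε : ℝ, 0 < ε → ∃ M₀ : ℕ, ∀ M : ℕ, M₀ ≤ M →
  ∀ u : ℤ, (em m - ε) * (∏ l ∈ (a * b).primeFactors with 5 ≤ l ∧ ¬ l ∣ m, (1 - 2 / (l : ℝ))) * M ≤
    #{c ∈ Ioc u (u + M) | (m : ℤ) ∣ c - c' ∧ TrueCase a b c}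

/-- Row MSP (short; `theorem MSP (h : KSB_stmt) : MSP_stmt`; a copy of SPA, Pool/Agent/helper87/AL/SPA.lean, with `2 m ∣ c` in place of
`Even c`). -/
def MSP_stmt : Prop := ∀ m K : ℕ, 1 ≤ m → 1 ≤ K → ∃ C : ℝ, 0 < C ∧ (TCM m K → SparseM m K C)

/-- Row MUN (short; a copy of UNI, Pool/Agent/helper5/AL/UNI.lean: the multiples of `2 m` are even). -/
def MUN_stmt : Prop := ∀ (m K : ℕ) (C : ℝ), 1 ≤ m → 1 ≤ K → 0 < C → TCM m K → SparseM m K C →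
  ∃ K' : ℕ, 1 ≤ K' ∧ TCM m K' ∧ SparseM m K' 1

/-- Row MPI (short; compare PIG, Pool/Agent/helper5/AL/PIG.lean).  `¬ TCM m (k P)` gives `X`, `Y` with `k P` elements, all `y - x ≠ 0`,
`≡ 0` mod `2 m` and bad; so all elements of `X ∪ Y` (`k P ≥ 1`) are congruent mod `2 m`.  Pigeonhole mod `P` in `X` and in `Y`, subsets of
exactly `k` elements.  Let `x₀ ∈ X`, `y₀ ∈ Y`.  If `P = m P'`-divisibility is wanted, note that the statement asks for `P ∣ x`: translate by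
`- x₀`; `u₀ = y₀ - x₀`, `2 m ∣ u₀`.  `Bad (y - x)` follows from `BadM m (y - x)`. -/
def MPI_stmt : Prop := ∀ k P m : ℕ, 1 ≤ k → 1 ≤ P → 1 ≤ m → ¬ TCM m (k * P) →
  ∃ (X Y : Finset ℤ) (u₀ : ℤ), #X = k ∧ #Y = k ∧ ((2 * m : ℕ) : ℤ) ∣ u₀ ∧
    (∀ x ∈ X, (P : ℤ) ∣ x ∧ ((2 * m : ℕ) : ℤ) ∣ x) ∧ (∀ y ∈ Y, (P : ℤ) ∣ y - u₀ ∧ ((2 * m : ℕ) : ℤ) ∣ y) ∧
    ∀ x ∈ X, ∀ y ∈ Y, Bad (y - x)

/-- Row MHS (medium).  Choose `g`, `g'` modulo `m P`, prime by prime (Chinese remainder theorem over the prime powers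
`l^e` dividing exactly `m P`).  `l ∣ m` (so `l ∣ u₀`): `g`, `g'` mod `l` units with `a g - b g' ≡ c'` mod `l` (`l ∣ a`: then `l ∤ b`, `l ∤ c'`,
`g' ≡ -c'/b`, `g` any unit; `l ∣ b`: symmetric; `l ∤ ab`, `l ≥ 3`: `g` a unit with `a g ≢ c'`, `l - 1 ≥ 2` choices minus at most one;
`l = 2`, `ab` odd: `c'` is even by Poss, `g = g' = 1`); then lift to `l^e`: one of `a`, `b` is a unit mod `l`, change `g` (if `l ∤ a`) or `g'` (if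
`l ∤ b`) within its class mod `l` so that `a g - b g' ≡ c'` mod `l^e`.  `l ∤ m`, `l ∣ P`: `g ≡ g'` any class different from `0`, `-u₀` (for
`l = 2`: `u₀` is even).  Then all the conditions hold; `m ∣ (a g - b g') - c'`. -/
def MHS_stmt : Prop := ∀ (m P a b : ℕ) (u₀ c' : ℤ), 1 ≤ m → 1 ≤ P → ((2 * m : ℕ) : ℤ) ∣ u₀ → Poss a b c' →
  ∃ g g' : ℤ, (m : ℤ) ∣ (a * g - b * g') - c' ∧ ∀ l : ℕ, l.Prime → l ∣ m * P →
    ¬ (l : ℤ) ∣ g ∧ ¬ (l : ℤ) ∣ g + u₀ ∧ ¬ (l : ℤ) ∣ g' ∧ ¬ (l : ℤ) ∣ g' + u₀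

/-- Row MJA (short to medium; `theorem MJA (h : OMG_stmt) : MJA_stmt`; a copy of JAC, Pool/Agent/helper96/AL/JAC.lean, with
`P = q (2κ)!` in place of `(2κ)!` and only the primes `l ∤ q`). -/
def MJA_stmt : Prop := ∀ κ q : ℕ, 1 ≤ κ → 1 ≤ q → ∃ C : ℕ, ∀ (m : ℕ) (g : ℤ) (B : ℕ → Finset ℤ), 0 < m →
  (∀ l, #(B l) ≤ κ) → ∀ u : ℤ, ∃ c : ℤ, u < c ∧ (c : ℝ) ≤ u + C * √(m : ℝ) ∧
    ((q * (2 * κ).factorial : ℕ) : ℤ) ∣ c - g ∧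
    ∀ l ∈ m.primeFactors, 2 * κ < l → ¬ l ∣ q → ∀ β ∈ B l, ¬ (l : ℤ) ∣ c - β

/-- Row MLC (short; `theorem MLC (h : LNV_stmt) : MLC_stmt`; compare LCA, Pool/Agent/helper5/AL/LCA.lean).  `p ∣ m (4k)!`: `n = 0`, `z ≡ 0` or
`u₀` mod `p` (if `p ∣ m` then `z ≡ 0`).  Otherwise `p > 4k`, `p ∤ m`: LNV for the at most `4k < p` forms. -/
def MLC_stmt : Prop := ∀ (k m a b : ℕ) (X Y : Finset ℤ) (u₀ h h' : ℤ), 1 ≤ k → 1 ≤ m → #X = k → #Y = k →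
  (∀ x ∈ X, (((4 * k).factorial : ℕ) : ℤ) ∣ x ∧ ((2 * m : ℕ) : ℤ) ∣ x) →
  (∀ y ∈ Y, (((4 * k).factorial : ℕ) : ℤ) ∣ y - u₀ ∧ ((2 * m : ℕ) : ℤ) ∣ y) →
  (∀ l : ℕ, l.Prime → l ∣ m * (4 * k).factorial → ¬ (l : ℤ) ∣ h ∧ ¬ (l : ℤ) ∣ h + u₀ ∧ ¬ (l : ℤ) ∣ h' ∧ ¬ (l : ℤ) ∣ h' + u₀) →
  (∀ l : ℕ, l.Prime → 4 * k < l → ¬ l ∣ m → l ∣ b → ∀ z ∈ X ∪ Y, ¬ (l : ℤ) ∣ h + z) →
  (∀ l : ℕ, l.Prime → 4 * k < l → ¬ l ∣ m → l ∣ a → ∀ z ∈ X ∪ Y, ¬ (l : ℤ) ∣ h' + z) →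
  ∀ p : ℕ, p.Prime → ∃ n : ℕ, (∀ z ∈ X ∪ Y, ¬ (p : ℤ) ∣ b * n + (h + z)) ∧ ∀ z ∈ X ∪ Y, ¬ (p : ℤ) ∣ a * n + (h' + z)

/-- Row MGP (medium; `theorem MGP (hMHS : MHS_stmt) (hSOL : SOL_stmt) (hMJA : MJA_stmt) (hMLC : MLC_stmt) (hGP1 : GP1_stmt) :
MGP_stmt`; compare GP2, Pool/Agent/helper96/AL/GP2.lean).  `P = (4k)!`, `κ = 2k`, `q = m`.  Given `a`, `b`, `c'`: `g`, `g'` from MHS.  MJA with
`q = m`, `m := a b`, the residue `a g - b g'` and the classes `-a z` (`l ∣ b`), `b z` (`l ∣ a`) gives `c₀ ≡ a g - b g'` mod `m (4k)!`; SOL with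
`P = m (4k)!`: `c₀ = a h - b h'`, `h ≡ g`, `h' ≡ g'` mod `m (4k)!`, so the four conditions at the primes `l ∣ m (4k)!` hold for `h`, `h'`.
MLC, GP1 as before: `c = c₀ + a z - b z'`, `TrueCase a b c`, `c ≡ c₀ ≡ c'` mod `m` as `m ∣ z`, `m ∣ z'`.  The two possible starts
of the interval for `c₀` as in GP2. -/
def MGP_stmt : Prop := ∀ (k m : ℕ) (X Y : Finset ℤ) (u₀ : ℤ), 1 ≤ k → 1 ≤ m → BlcK k → #X = k → #Y = k →
  ((2 * m : ℕ) : ℤ) ∣ u₀ → (∀ x ∈ X, (((4 * k).factorial : ℕ) : ℤ) ∣ x ∧ ((2 * m : ℕ) : ℤ) ∣ x) →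
  (∀ y ∈ Y, (((4 * k).factorial : ℕ) : ℤ) ∣ y - u₀ ∧ ((2 * m : ℕ) : ℤ) ∣ y) →
  (∀ x ∈ X, ∀ y ∈ Y, Bad (y - x)) → GapsM m

open Classical in
/-- Row MCN (medium; from CR as CNT, Pool/Agent/helper31/AL/CNT.lean: `theorem MCN (h : Pool.Agent.helper11.TX.CR_stmt) : MCN_stmt`).
`c = c' + m t`; `t` runs through an interval of at least `M/m - 1` integers.  `Loc a b u₀ l c` holds for every prime `l ∣ m` (`l ∣ u₀`, Poss;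
the same cases as in MHS).  For the primes `l ∣ 6 a b`, `l ∤ m`, put `f l t = 1` if `Loc a b u₀ l (c' + m t)`, else `0`; `m` is a unit mod `l`, so the
sum over `t < l` is the number of the classes mod `l` with `Loc`: `≥ 1` for `l = 2`, the number of the statement for `l = 3`, `≥ l - 2`
for `l ≥ 5` (see CNT).  The lower bound of CR.  (`3 ∣ m`: the factor `1` instead of `#{...}/3`.) -/
def MCN_stmt : Prop := ∀ (m a b : ℕ) (u₀ c' : ℤ), 1 ≤ m → ((2 * m : ℕ) : ℤ) ∣ u₀ → Poss a b c' → ∃ C : ℝ, ∀ (u : ℤ) (M : ℕ),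
  1 / (m : ℝ) * (if 2 ∣ m then 1 else 1 / 2) * (if 3 ∣ m then 1 else (#{r ∈ range 3 | Loc a b u₀ 3 (r : ℕ)} : ℝ) / 3) *
    (∏ l ∈ (a * b).primeFactors with 5 ≤ l ∧ ¬ l ∣ m, (1 - 2 / (l : ℝ))) * M - C ≤
    #{c ∈ Ioc u (u + M) | (m : ℤ) ∣ c - c' ∧ S0 a b u₀ c}

/-- Row MQU (medium; `theorem MQU (hMPI : MPI_stmt) (hGPC : GPC_stmt) (hSUM : SUM_stmt) (hM3 : M3_stmt) (hMCN : MCN_stmt) :
MQU_stmt`; compare QUA, Pool/Agent/helper4/AL/QUA.lean).  Given `a`, `b`, `c'`, `ε` (if `ε ≥ em m` the left side is `≤ 0`).  `L = max L₀ 1` from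
GPC, `W = m (6 a b (4k)!)`, MPI with `(L, W)`: `X`, `Y`, `u₀`, `2 m ∣ u₀`, `W ∣ x`, `W ∣ y - u₀`.  `S c = (m ∣ c - c' ∧ S0 a b u₀ c)` is periodic
mod `W`.  SUM with this `S`, `G = TrueCase a b`, `δ = 1 - ε`, and GPC (only for `c₀` with `S0`):
`(1 - ε) #(S ∩ I) - C ≤ ∑_t #{c ∈ I | G c ∧ S (c - s_t)}`; `m ∣ s_t`, so `S (c - s_t)` implies `m ∣ c - c'`: the sum is
`≤ μ #{c ∈ I | m ∣ c - c' ∧ G c}` with `μ = 4` if `3 ∣ m` and `μ` = the `m` of M3 if `3 ∤ m`.  MCN: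
`#(S ∩ I) ≥ μ (em m) Π M - C'` (`3 ∤ m`: `#{...}/3 ≥ μ/6`; `3 ∣ m`: `1 = 4/4`). -/
def MQU_stmt : Prop := ∀ k m : ℕ, 1 ≤ k → 1 ≤ m → BlcK k → (∀ K : ℕ, 1 ≤ K → ¬ TCM m K) → QuarterM m

/-- The theorem for every modulus. -/
def ALTM_stmt : Prop := ∀ m : ℕ, 1 ≤ m → (∃ K : ℕ, 1 ≤ K ∧ TCM m K ∧ SparseM m K 1) ∨ (GapsM m ∧ QuarterM m)

/-- Assembly (done here). -/
theorem ALTM_of (hMSP : MSP_stmt) (hMUN : MUN_stmt) (hMPI : MPI_stmt) (hBLC : BLC_stmt) (hMGP : MGP_stmt)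
    (hMQU : MQU_stmt) : ALTM_stmt := by
  obtain ⟨k, hk, hB⟩ := hBLC
  intro m hm
  by_cases h : ∃ K : ℕ, 1 ≤ K ∧ TCM m K
  · obtain ⟨K, hK, hT⟩ := h
    obtain ⟨C, hC, hS⟩ := hMSP m K hm hK
    exact Or.inl (hMUN m K C hm hK hC hT (hS hT))
  · right
    have h' : ∀ K : ℕ, 1 ≤ K → ¬ TCM m K := fun K hK hT => h ⟨K, hK, hT⟩
    refine ⟨?_, hMQU k m hk hm hB h'⟩
    have hP : 1 ≤ (4 * k).factorial := Nat.factorial_pos _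
    have hK : 1 ≤ k * (4 * k).factorial := Nat.one_le_iff_ne_zero.2 (Nat.mul_ne_zero (by omega) (by omega))
    obtain ⟨X, Y, u₀, hX, hY, hu, hα, hβ, hbad⟩ := hMPI k (4 * k).factorial m hk hP hm (h' _ hK)
    exact hMGP k m X Y u₀ hk hm hB hX hY hu hα hβ hbad

end Pool.Agent.AL
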